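import Pool.Agent.Helper79.KLT.Flat
/-!
Positive spanning: for every nonzero real direction `v0` there is a dual lattice vector which is
negative on `v0` and bounded below on `V`.
-/
set_option autoImplicit false
namespace Pool.Agent.Helper79.KLT

theorem exists_between_fin {ι : Type} [Fintype ι] (P Q : ι → Prop) (l u : ι → ℝ)
    (h : ∀ i j, P i → Q j → l i ≤ u j) : ∃ c, (∀ i, P i → l i ≤ c) ∧ (∀ j, Q j → c ≤ u j) := by
  classical
  by_cases hP : (Finset.univ.filter P).Nonempty
  · refine ⟨(Finset.univ.filter P).sup' hP l, fun i hi => ?_, fun j hj => ?_⟩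
    · exact Finset.le_sup' l (Finset.mem_filter.2 ⟨Finset.mem_univ _, hi⟩)
    · exact Finset.sup'_le _ _ fun i hi => h i j (Finset.mem_filter.1 hi).2 hj
  · by_cases hQ : (Finset.univ.filter Q).Nonempty
    · refine ⟨(Finset.univ.filter Q).inf' hQ u, fun i hi => ?_, fun j hj => ?_⟩
      · exact absurd ⟨i, Finset.mem_filter.2 ⟨Finset.mem_univ _, hi⟩⟩ hP
      · exact Finset.inf'_le u (Finset.mem_filter.2 ⟨Finset.mem_univ _, hj⟩)
    · refine ⟨0, fun i hi => ?_, fun j hj => ?_⟩
      · exact absurd ⟨i, Finset.mem_filter.2 ⟨Finset.mem_univ _, hi⟩⟩ hP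
      · exact absurd ⟨j, Finset.mem_filter.2 ⟨Finset.mem_univ _, hj⟩⟩ hQ

/-- every nonzero vector of a free module is an integer multiple of a unimodular vector -/
theorem exists_unimod {k : ℕ} {M : Type} [AddCommGroup M] [Module.Free ℤ M] [Module.Finite ℤ M]
    (hM : Module.finrank ℤ M = k) (m0 : M) (hm0 : m0 ≠ 0) :
    ∃ (m1 : M) (g : ℤ) (q : M →+ ℤ), g ≠ 0 ∧ g • m1 = m0 ∧ q m1 = 1 := by
  classical
  let e : Module.Basis (Fin k) ℤ M := Module.finBasisOfFinrankEq ℤ M hM
  let ev : (M →+ ℤ) →+ ℤ :=
    { toFun := fun w => w m0, map_zero' := rfl, map_add' := fun a b => rfl }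
  have hev : ev ≠ 0 := by
    intro h
    apply hm0
    apply e.repr.injective
    rw [map_zero]
    ext l
    have h1 : ev ((e.coord l).toAddMonoidHom) = 0 := by rw [h]; rfl
    exact h1
  obtain ⟨Q, g, q, hg, hQ, hq⟩ := exists_prim ev hev
  have hw : ∀ w : M →+ ℤ, w m0 = g * Q w := fun w => hQ w
  have hqm : q m0 = g := by rw [hw, hq, mul_one]
  refine ⟨∑ l, Q ((e.coord l).toAddMonoidHom) • e l, g, q, hg, ?_, ?_⟩
  · rw [← e.sum_repr m0, Finset.smul_sum]
    refine Finset.sum_congr rfl fun l _ => ?_
    rw [smul_smul]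
    congr 1
    exact (hw ((e.coord l).toAddMonoidHom)).symm
  · have h1 : g • (∑ l, Q ((e.coord l).toAddMonoidHom) • e l) = m0 := by
      conv_rhs => rw [← e.sum_repr m0]
      rw [Finset.smul_sum]
      refine Finset.sum_congr rfl fun l _ => ?_
      rw [smul_smul]
      congr 1
      exact (hw ((e.coord l).toAddMonoidHom)).symm
    have h2 := congrArg q h1
    rw [map_zsmul, hqm, smul_eq_mul] at h2
    exact mul_left_cancel₀ hg (by rw [h2, mul_one])

/-- The positive spanning theorem. -/
theorem pos_span : ∀ (k : ℕ) (M : Type) [AddCommGroup M] [Module.Free ℤ M]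
    [Module.Finite ℤ M], Module.finrank ℤ M = k → ∀ (ι : Type) [Fintype ι] (V : ι → M →+ ℝ)
    (ε : ℝ), 0 < ε → (∀ w : M →+ ℤ, w ≠ 0 → ∀ a : ι → ℝ, (∀ i, 0 ≤ a i) →
      (∀ m, (w m : ℝ) = ∑ i, a i * V i m) → ε ≤ ∑ i, a i) →
    ∀ v0 : M →+ ℝ, v0 ≠ 0 → ∃ m : M, v0 m < 0 ∧ ∀ i, -(k * 2 ^ (k + 4) / ε) ≤ V i m := by
  intro k
  induction k with
  | zero =>
    intro M _ _ _ hM ι _ V ε hε hV v0 hv0
    exfalso
    apply hv0
    have : Subsingleton M := (Module.finrank_eq_zero_iff_of_free (R := ℤ) (M := M)).1 hM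
    ext m
    rw [Subsingleton.elim m 0]
    simp
  | succ k ih =>
    intro M _ _ _ hM ι _ V ε hε hV v0 hv0
    classical
    obtain ⟨m0, hm0, hm0V⟩ := flatness (Nat.succ_pos k) hM V hε hV
    obtain ⟨m1, g, q, hg, hgm, hqm⟩ := exists_unimod hM m0 hm0
    set F : ℝ := ((k + 1 : ℕ) : ℝ) * 2 ^ (k + 1 + 3) / ε with hF
    have hF0 : 0 ≤ F := by positivity
    have hm1V : ∀ i, |V i m1| ≤ F := by
      intro i
      have h1 := hm0V i
      rw [← hgm, map_zsmul, zsmul_eq_mul, abs_mul] at h1
      have h2 : (1 : ℝ) ≤ |(g : ℝ)| := by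
        have : (1 : ℤ) ≤ |g| := Int.one_le_abs hg
        exact_mod_cast this
      calc |V i m1| = 1 * |V i m1| := (one_mul _).symm
        _ ≤ |(g : ℝ)| * |V i m1| := mul_le_mul_of_nonneg_right h2 (abs_nonneg _)
        _ ≤ F := h1
    set Bk : ℝ := (k : ℝ) * 2 ^ (k + 4) / ε with hBk
    set B : ℝ := ((k + 1 : ℕ) : ℝ) * 2 ^ (k + 1 + 4) / ε with hB
    have hBk0 : 0 ≤ Bk := by positivity
    have hFB : F ≤ B := by
      rw [hF, hB]
      apply div_le_div_of_nonneg_right _ hε.le
      apply mul_le_mul_of_nonneg_left _ (by positivity)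
      exact pow_le_pow_right₀ (by norm_num) (by omega)
    have hBB : Bk + F / 2 ≤ B := by
      have h1 : Bk + F / 2 = ((k : ℝ) * 2 ^ (k + 4) + ((k + 1 : ℕ) : ℝ) * 2 ^ (k + 3)) / ε := by
        rw [hBk, hF, show (2:ℝ) ^ (k + 1 + 3) = 2 ^ (k + 3) * 2 by rw [← pow_succ]]
        ring
      rw [h1, hB]
      apply div_le_div_of_nonneg_right _ hε.le
      have h2 : (2:ℝ) ^ (k + 4) = 2 ^ (k + 3) * 2 := by rw [← pow_succ]
      have h3 : (2:ℝ) ^ (k + 1 + 4) = 2 ^ (k + 3) * 4 := by
        rw [show k + 1 + 4 = k + 3 + 2 by ring, pow_add]; norm_num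
      rw [h2, h3]
      have h4 : (0:ℝ) < 2 ^ (k + 3) := by positivity
      push_cast
      nlinarith [mul_nonneg (Nat.cast_nonneg (α := ℝ) k) h4.le]
    by_cases hv1 : v0 m1 = 0
    swap
    · -- direct case
      rcases lt_or_gt_of_ne hv1 with h | h
      · refine ⟨m1, h, fun i => ?_⟩
        have := (abs_le.1 (hm1V i)).1
        linarith
      · refine ⟨-m1, by rw [map_neg]; linarith, fun i => ?_⟩
        have := (abs_le.1 (hm1V i)).2
        rw [map_neg]
        linarith
    -- kernel of q
    let Q : M →ₗ[ℤ] ℤ := q.toIntLinearMap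
    let K : Submodule ℤ M := LinearMap.ker Q
    have hKmem : ∀ x : M, x ∈ K ↔ q x = 0 := fun x => LinearMap.mem_ker
    have hQsurj : LinearMap.range Q = ⊤ := by
      rw [LinearMap.range_eq_top]
      intro n
      refine ⟨n • m1, ?_⟩
      show q _ = n
      rw [map_zsmul, hqm]; simp
    have hKrank : Module.finrank ℤ K = k := by
      have h1 := Submodule.finrank_quotient_add_finrank K
      have h2 := (Q.quotKerEquivOfSurjective (LinearMap.range_eq_top.1 hQsurj)).finrank_eq
      rw [Module.finrank_self] at h2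
      have h3 : Module.finrank ℤ (M ⧸ K) = 1 := h2
      omega
    have hnoeth : IsNoetherian ℤ M := isNoetherian_of_isNoetherianRing_of_finite ℤ M
    have hfin : Module.Finite ℤ K := Module.IsNoetherian.finite ℤ K
    have hfree : Module.Free ℤ K := Module.free_of_finite_type_torsion_free'
    let inc : K →+ M := K.subtype.toAddMonoidHom
    have hprojmem : ∀ m : M, m - q m • m1 ∈ K := by
      intro m
      rw [hKmem, map_sub, map_zsmul, hqm]
      simp
    let pr : M →+ K :=
      { toFun := fun m => ⟨m - q m • m1, hprojmem m⟩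
        map_zero' := by ext; simp
        map_add' := by
          intro a b
          ext
          simp only [map_add, add_zsmul, Submodule.coe_add]
          abel }
    have hpr : ∀ m, ((pr m : K) : M) = m - q m • m1 := fun m => rfl
    have hprK : ∀ x : K, pr x = x := by
      intro x
      ext
      rw [hpr, (hKmem x).1 x.2, zero_smul, sub_zero]
    -- functionals vanishing at m1 factor
    have hfac : ∀ (f : M →+ ℝ), f m1 = 0 → ∀ m, f ((pr m : K) : M) = f m := by
      intro f hf m
      rw [hpr, map_sub, map_zsmul, hf]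
      simp
    let ι' : Type := {i : ι // V i m1 = 0} ⊕ {p : ι × ι // 0 < V p.1 m1 ∧ V p.2 m1 < 0}
    -- convex coefficients
    let c : ι' → ι → ℝ := fun x => Sum.elim (fun i l => if l = i.1 then 1 else 0)
      (fun p l => (if l = p.1.1 then -(V p.1.2 m1) / (V p.1.1 m1 - V p.1.2 m1) else 0) +
        (if l = p.1.2 then V p.1.1 m1 / (V p.1.1 m1 - V p.1.2 m1) else 0)) x
    have hc0 : ∀ x l, 0 ≤ c x l := by
      intro x l
      rcases x with i | p
      · show 0 ≤ (if l = i.1 then (1 : ℝ) else 0)
        split_ifs <;> norm_num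
      · have hp1 := p.2.1
        have hp2 := p.2.2
        show 0 ≤ (if l = p.1.1 then -(V p.1.2 m1) / (V p.1.1 m1 - V p.1.2 m1) else 0) +
          (if l = p.1.2 then V p.1.1 m1 / (V p.1.1 m1 - V p.1.2 m1) else 0)
        refine add_nonneg ?_ ?_
        · split_ifs
          · exact div_nonneg (by linarith) (by linarith)
          · exact le_refl _
        · split_ifs
          · exact div_nonneg (by linarith) (by linarith)
          · exact le_refl _
    have hc1 : ∀ x, ∑ l, c x l = 1 := by
      intro x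
      rcases x with i | p
      · show ∑ l, (if l = i.1 then (1 : ℝ) else 0) = 1
        simp
      · have hp1 := p.2.1
        have hp2 := p.2.2
        show ∑ l, ((if l = p.1.1 then -(V p.1.2 m1) / (V p.1.1 m1 - V p.1.2 m1) else 0) +
          (if l = p.1.2 then V p.1.1 m1 / (V p.1.1 m1 - V p.1.2 m1) else 0)) = 1
        rw [Finset.sum_add_distrib]
        simp only [Finset.sum_ite_eq', Finset.mem_univ, if_true]
        have : V p.1.1 m1 - V p.1.2 m1 ≠ 0 := by linarith
        field_simp
        ring
    let U : ι' → M →+ ℝ := fun x => ∑ l, (AddMonoidHom.mulLeft (c x l)).comp (V l)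
    have hU : ∀ x m, U x m = ∑ l, c x l * V l m := by
      intro x m
      simp [U, AddMonoidHom.finsetSum_apply]
    have hUl : ∀ (i : {i : ι // V i m1 = 0}) m, U (Sum.inl i) m = V i.1 m := by
      intro i m
      rw [hU]
      show ∑ l, (if l = i.1 then (1 : ℝ) else 0) * V l m = _
      simp
    have hUr : ∀ (p : {p : ι × ι // 0 < V p.1 m1 ∧ V p.2 m1 < 0}) m,
        U (Sum.inr p) m = -(V p.1.2 m1) / (V p.1.1 m1 - V p.1.2 m1) * V p.1.1 m +
          V p.1.1 m1 / (V p.1.1 m1 - V p.1.2 m1) * V p.1.2 m := by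
      intro p m
      rw [hU]
      show ∑ l, ((if l = p.1.1 then -(V p.1.2 m1) / (V p.1.1 m1 - V p.1.2 m1) else 0) +
          (if l = p.1.2 then V p.1.1 m1 / (V p.1.1 m1 - V p.1.2 m1) else 0)) * V l m = _
      simp only [add_mul, ite_mul, zero_mul, Finset.sum_add_distrib, Finset.sum_ite_eq',
        Finset.mem_univ, if_true]
    have hU1 : ∀ x, U x m1 = 0 := by
      intro x
      rcases x with i | p
      · rw [hUl]; exact i.2
      · rw [hUr]
        have hp1 := p.2.1
        have hp2 := p.2.2
        have : V p.1.1 m1 - V p.1.2 m1 ≠ 0 := by linarith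
        field_simp
        ring
    let V' : ι' → K →+ ℝ := fun x => (U x).comp inc
    have hV'pr : ∀ x m, V' x (pr m) = U x m := fun x m => hfac (U x) (hU1 x) m
    have hV' : ∀ w : K →+ ℤ, w ≠ 0 → ∀ a : ι' → ℝ, (∀ i, 0 ≤ a i) →
        (∀ m, (w m : ℝ) = ∑ i, a i * V' i m) → ε ≤ ∑ i, a i := by
      intro w hw a ha haw
      have h1 : w.comp pr ≠ 0 := by
        intro h
        apply hw
        ext x
        have := DFunLike.congr_fun h (x : M)
        rw [AddMonoidHom.comp_apply, hprK] at this
        exact this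
      have h2 := hV (w.comp pr) h1 (fun l => ∑ x, a x * c x l)
        (fun l => Finset.sum_nonneg fun x _ => mul_nonneg (ha x) (hc0 x l)) (fun m => by
          rw [AddMonoidHom.comp_apply, haw (pr m)]
          have h3 : ∀ x ∈ (Finset.univ : Finset ι'), a x * V' x (pr m) =
              ∑ l, a x * c x l * V l m := by
            intro x _
            rw [hV'pr, hU, Finset.mul_sum]
            exact Finset.sum_congr rfl fun l _ => by ring
          rw [Finset.sum_congr rfl h3, Finset.sum_comm]
          exact Finset.sum_congr rfl fun l _ => by rw [Finset.sum_mul])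
      have h4 : ∑ l, ∑ x, a x * c x l = ∑ x, a x := by
        rw [Finset.sum_comm]
        refine Finset.sum_congr rfl fun x _ => ?_
        rw [← Finset.mul_sum, hc1, mul_one]
      rw [h4] at h2
      exact h2
    have hv0' : v0.comp inc ≠ 0 := by
      intro h
      apply hv0
      ext m
      have h1 := DFunLike.congr_fun h (pr m)
      rw [AddMonoidHom.comp_apply] at h1
      have h2 : v0 ((pr m : K) : M) = 0 := h1
      rw [hfac v0 hv1] at h2
      simpa using h2
    obtain ⟨m', hm'0, hm'V⟩ := ih K hKrank ι' V' ε hε hV' (v0.comp inc) hv0'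
    have hm'V' : ∀ x, -Bk ≤ U x (m' : M) := fun x => hm'V x
    obtain ⟨c0, hc0l, hc0u⟩ := exists_between_fin (fun i => 0 < V i m1) (fun j => V j m1 < 0)
      (fun i => (-Bk - V i (m' : M)) / V i m1) (fun j => (V j (m' : M) + Bk) / (-(V j m1)))
      (fun i j hi hj => by
        have h1 := hm'V' (Sum.inr ⟨(i, j), hi, hj⟩)
        rw [hUr] at h1
        simp only at h1
        have hS : 0 < V i m1 - V j m1 := by linarith
        rw [div_le_div_iff₀ hi (by linarith)]
        have h2 : -Bk * (V i m1 - V j m1) ≤ -(V j m1) * V i (m' : M) + V i m1 * V j (m' : M) := by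
          have h3 := mul_le_mul_of_nonneg_right h1 hS.le
          have h4 : (-(V j m1) / (V i m1 - V j m1) * V i (m' : M) +
              V i m1 / (V i m1 - V j m1) * V j (m' : M)) * (V i m1 - V j m1) =
              -(V j m1) * V i (m' : M) + V i m1 * V j (m' : M) := by
            field_simp
          rw [h4] at h3
          exact h3
        nlinarith)
    refine ⟨(m' : M) + (round c0) • m1, ?_, fun i => ?_⟩
    · rw [map_add, map_zsmul, hv1, smul_zero, add_zero]
      exact hm'0
    · rw [map_add, map_zsmul, zsmul_eq_mul]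
      have hr := abs_sub_round c0
      have hVi := hm1V i
      have herr : |((round c0 : ℝ) - c0) * V i m1| ≤ F / 2 := by
        rw [abs_mul, abs_sub_comm]
        calc |c0 - (round c0 : ℝ)| * |V i m1| ≤ 1 / 2 * F :=
              mul_le_mul hr hVi (abs_nonneg _) (by norm_num)
          _ = F / 2 := by ring
      have herr' := (abs_le.1 herr).1
      have hmain : -Bk ≤ V i (m' : M) + c0 * V i m1 := by
        rcases lt_trichotomy (V i m1) 0 with h | h | h
        · have h1 := hc0u i h
          rw [le_div_iff₀ (by linarith)] at h1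
          linarith
        · have h1 := hm'V' (Sum.inl ⟨i, h⟩)
          rw [hUl] at h1
          rw [h, mul_zero, add_zero]
          exact h1
        · have h1 := hc0l i h
          rw [div_le_iff₀ h] at h1
          linarith
      have : V i (m' : M) + (round c0 : ℝ) * V i m1 =
          (V i (m' : M) + c0 * V i m1) + ((round c0 : ℝ) - c0) * V i m1 := by ring
      rw [this]
      linarith

end Pool.Agent.Helper79.KLT
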