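import Pool.Agent.Helper79.KLT.Trans
/-!
A flatness theorem for polytopes `conv(0, V)` without small nonzero lattice points.
-/
set_option autoImplicit false
namespace Pool.Agent.Helper79.KLT
open Matrix

section
variable {M : Type} [AddCommGroup M]

/-- integer near a real, nonzero -/
theorem exists_int_ne_zero_near (c : ℝ) : ∃ a : ℤ, a ≠ 0 ∧ |(a : ℝ) - c| ≤ 1 := by
  by_cases h : ⌊c⌋ = 0
  · refine ⟨1, one_ne_zero, ?_⟩
    have h1 : (0 : ℝ) ≤ c := by
      have := Int.floor_le c; rw [h] at this; simpa using this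
    have h2 : c < 1 := by
      have := Int.lt_floor_add_one c; rw [h] at this; simpa using this
    rw [abs_le]
    constructor <;> push_cast <;> linarith
  · refine ⟨⌊c⌋, h, ?_⟩
    have h1 := Int.floor_le c
    have h2 := Int.lt_floor_add_one c
    rw [abs_le]
    constructor <;> linarith

/-- the degenerate case: the `V i` do not span -/
theorem degenerate {k : ℕ} (hk : 0 < k) [Module.Free ℤ M] [Module.Finite ℤ M]
    (hM : Module.finrank ℤ M = k) {ι : Type} [Fintype ι] (V : ι → M →+ ℝ)
    (hns : ¬ ∀ f : M →+ ℝ, ∃ c : ι → ℝ, ∀ m, f m = ∑ i, c i * V i m) {B : ℝ} (hB : 0 < B) :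
    ∃ m : M, m ≠ 0 ∧ ∀ i, |V i m| ≤ B := by
  classical
  let e : Module.Basis (Fin k) ℤ M := Module.finBasisOfFinrankEq ℤ M hM
  push Not at hns
  obtain ⟨f, hf⟩ := hns
  let R : ι → (Fin k → ℝ) := fun i l => V i (e l)
  set S : Submodule ℝ (Fin k → ℝ) := Submodule.span ℝ (Set.range R) with hS
  have hlt : S < ⊤ := by
    rw [lt_top_iff_ne_top]
    intro htop
    have h1 : (fun l => f (e l)) ∈ S := by rw [htop]; trivial
    rw [hS, Submodule.mem_span_range_iff_exists_fun] at h1
    obtain ⟨c, hc⟩ := h1
    obtain ⟨m, hm⟩ := hf c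
    apply hm
    rw [expand e f m]
    have h2 : ∀ l, f (e l) = ∑ i, c i * V i (e l) := by
      intro l
      have := congrFun hc l
      rw [Finset.sum_apply] at this
      simpa [R] using this.symm
    have h3 : ∀ i ∈ (Finset.univ : Finset ι), c i * V i m =
        ∑ l, (e.repr m l : ℝ) * (c i * V i (e l)) := by
      intro i _
      rw [expand e (V i) m, Finset.mul_sum]
      exact Finset.sum_congr rfl fun l _ => by ring
    rw [Finset.sum_congr rfl h3, Finset.sum_comm]
    refine Finset.sum_congr rfl fun l _ => ?_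
    rw [h2 l, Finset.mul_sum]
  obtain ⟨φ, hφ0, hφ⟩ := Submodule.exists_le_ker_of_lt_top S hlt
  let ℓ' : Fin k → ℝ := fun l => φ (Pi.single l 1)
  have hφe : ∀ x : Fin k → ℝ, φ x = ∑ l, x l * ℓ' l := by
    intro x
    conv_lhs => rw [← Finset.univ_sum_single x]
    rw [map_sum]
    refine Finset.sum_congr rfl fun l _ => ?_
    have : (Pi.single l (x l) : Fin k → ℝ) = x l • Pi.single l 1 := by
      rw [← Pi.single_smul]; simp
    rw [this, map_smul, smul_eq_mul]
  obtain ⟨j0, hj0⟩ : ∃ j0, ℓ' j0 ≠ 0 := by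
    by_contra h
    push Not at h
    apply hφ0
    refine LinearMap.ext fun x => ?_
    rw [hφe]
    simp [h]
  let ℓ : Fin k → ℝ := fun l => ℓ' l / ℓ' j0
  have hℓj : ℓ j0 = 1 := div_self hj0
  have hℓV : ∀ i, ∑ l, V i (e l) * ℓ l = 0 := by
    intro i
    have h1 : φ (R i) = 0 := by
      have : R i ∈ S := Submodule.subset_span ⟨i, rfl⟩
      exact hφ this
    rw [hφe] at h1
    have h2 : ∑ l, V i (e l) * ℓ l = (∑ l, R i l * ℓ' l) / ℓ' j0 := by
      rw [Finset.sum_div]
      exact Finset.sum_congr rfl fun l _ => by simp only [ℓ, R]; ring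
    rw [h2, h1, zero_div]
  set T : ℝ := ∑ i, ∑ l, |V i (e l)| with hT
  have hT0 : 0 ≤ T := Finset.sum_nonneg fun i _ => Finset.sum_nonneg fun l _ => abs_nonneg _
  set η : ℝ := B / (T + 1) with hη
  have hηpos : 0 < η := by positivity
  let y : Fin k → ℝ := fun i => if i = j0 then η ^ k else - ℓ i
  let G : Matrix (Fin k) (Fin k) ℝ := (1 : Matrix (Fin k) (Fin k) ℝ).updateCol j0 y
  have hGdet : G.det = η ^ k := by
    have h1 : G.det = Matrix.cramer (1 : Matrix (Fin k) (Fin k) ℝ) y j0 := by
      rw [Matrix.cramer_apply]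
    rw [h1, Matrix.cramer_one]
    simp [y]
  obtain ⟨x, hx0, hx⟩ := minkowski_forms hk G (by rw [hGdet]; positivity) hηpos
    (by rw [hGdet, abs_of_pos (by positivity)])
  refine ⟨∑ l, x l • e l, ?_, fun i => ?_⟩
  · intro h
    apply hx0
    have h1 := e.repr_sum_self x
    rw [h] at h1
    funext l
    have h4 := congrFun h1 l
    simpa using h4.symm
  · have hVi : V i (∑ l, x l • e l) = ∑ l, V i (e l) * (x l : ℝ) := by
      rw [map_sum]
      refine Finset.sum_congr rfl fun l _ => ?_
      rw [map_zsmul, zsmul_eq_mul, mul_comm]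
    have hVi2 : V i (∑ l, x l • e l) = ∑ l, V i (e l) * ((x l : ℝ) - ℓ l * x j0) := by
      rw [hVi]
      have h1 : ∑ l, V i (e l) * ((x l : ℝ) - ℓ l * x j0) =
          ∑ l, V i (e l) * (x l : ℝ) - (∑ l, V i (e l) * ℓ l) * x j0 := by
        rw [Finset.sum_mul, ← Finset.sum_sub_distrib]
        exact Finset.sum_congr rfl fun l _ => by ring
      rw [h1, hℓV, zero_mul, sub_zero]
    have hG : ∀ l, |(x l : ℝ) - ℓ l * x j0| ≤ η := by
      intro l
      by_cases hl : l = j0
      · subst hl
        rw [hℓj, one_mul, sub_self, abs_zero]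
        exact hηpos.le
      · have h1 := hx l
        have h2 : (G *ᵥ (fun j => (x j : ℝ))) l = (x l : ℝ) - ℓ l * x j0 := by
          have h3 : (G *ᵥ (fun j => (x j : ℝ))) l = ∑ j, G l j * (x j : ℝ) := rfl
          rw [h3]
          have h4 : ∀ j, G l j * (x j : ℝ) =
              (if j = l then (x j : ℝ) else 0) + (if j = j0 then - ℓ l * (x j : ℝ) else 0) := by
            intro j
            by_cases hj : j = j0
            · subst hj
              have h5 : G l j = y l := by simp [G]
              rw [h5]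
              have h6 : j ≠ l := fun h => hl h.symm
              simp [y, hl, h6]
            · have h5 : G l j = (1 : Matrix (Fin k) (Fin k) ℝ) l j := by
                simp only [G]; rw [Matrix.updateCol_ne hj]
              rw [h5, Matrix.one_apply]
              by_cases h7 : j = l
              · subst h7; simp [hj]
              · have h8 : l ≠ j := fun h => h7 h.symm
                simp [hj, h7, h8]
          rw [Finset.sum_congr rfl fun j _ => h4 j, Finset.sum_add_distrib]
          simp
          ring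
        rw [h2] at h1
        exact h1
    rw [hVi2]
    calc |∑ l, V i (e l) * ((x l : ℝ) - ℓ l * x j0)|
        ≤ ∑ l, |V i (e l) * ((x l : ℝ) - ℓ l * x j0)| := Finset.abs_sum_le_sum_abs _ _
      _ ≤ ∑ l, |V i (e l)| * η := by
          refine Finset.sum_le_sum fun l _ => ?_
          rw [abs_mul]
          exact mul_le_mul_of_nonneg_left (hG l) (abs_nonneg _)
      _ = (∑ l, |V i (e l)|) * η := by rw [Finset.sum_mul]
      _ ≤ T * η := by
          refine mul_le_mul_of_nonneg_right ?_ hηpos.le
          exact Finset.single_le_sum (f := fun i => ∑ l, |V i (e l)|)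
            (fun i _ => Finset.sum_nonneg fun l _ => abs_nonneg _) (Finset.mem_univ i)
      _ ≤ B := by
          rw [hη, ← mul_div_assoc, div_le_iff₀ (by positivity)]
          nlinarith

/-- Flatness: if `t • conv(0, V)` has no nonzero lattice point for `t < ε`, some nonzero dual
lattice vector is bounded by `k 2^(k+3) / ε` on `V`. -/
theorem flatness {k : ℕ} (hk : 0 < k) [Module.Free ℤ M] [Module.Finite ℤ M]
    (hM : Module.finrank ℤ M = k) {ι : Type} [Fintype ι] (V : ι → M →+ ℝ) {ε : ℝ} (hε : 0 < ε)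
    (hV : ∀ w : M →+ ℤ, w ≠ 0 → ∀ a : ι → ℝ, (∀ i, 0 ≤ a i) →
      (∀ m, (w m : ℝ) = ∑ i, a i * V i m) → ε ≤ ∑ i, a i) :
    ∃ m : M, m ≠ 0 ∧ ∀ i, |V i m| ≤ k * 2 ^ (k + 3) / ε := by
  classical
  have hkpos : (0 : ℝ) < k := by exact_mod_cast hk
  by_cases hspan : ∀ f : M →+ ℝ, ∃ c : ι → ℝ, ∀ m, f m = ∑ i, c i * V i m
  swap
  · exact degenerate hk hM V hspan (by positivity)
  set δ : ℝ := ε / (4 * k) with hδ
  have hδpos : 0 < δ := by positivity
  rcases transference k M hM ι V hspan δ hδpos with ⟨w, hw, hind, hsp⟩ | ⟨m, hm0, hm⟩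
  · exfalso
    choose b hb hbw using hw
    let P : Fin k → ι → ℝ := fun j i => max (b j i) 0
    let N : Fin k → ι → ℝ := fun j i => max (-(b j i)) 0
    have hPN : ∀ j i, P j i - N j i = b j i := by
      intro j i
      simp only [P, N]
      rcases le_total (b j i) 0 with h | h
      · rw [max_eq_right h, max_eq_left (by linarith)]; ring
      · rw [max_eq_left h, max_eq_right (by linarith)]; ring
    have hPN' : ∀ j i, P j i + N j i = |b j i| := by
      intro j i
      simp only [P, N]
      rcases le_total (b j i) 0 with h | h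
      · rw [max_eq_right h, max_eq_left (by linarith), abs_of_nonpos h]; ring
      · rw [max_eq_left h, max_eq_right (by linarith), abs_of_nonneg h]; ring
    have hP0 : ∀ j i, 0 ≤ P j i := fun j i => le_max_right _ _
    have hN0 : ∀ j i, 0 ≤ N j i := fun j i => le_max_right _ _
    let f : M →+ ℝ := ∑ i, (AddMonoidHom.mulLeft (δ * ∑ j, (P j i + N j i))).comp (V i)
    have hf : ∀ m, f m = ∑ i, (δ * ∑ j, (P j i + N j i)) * V i m := by
      intro m
      simp [f, AddMonoidHom.finsetSum_apply]
    obtain ⟨c, hc⟩ := hsp f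
    choose a ha0 ha using fun j => exists_int_ne_zero_near (c j)
    let W : M →+ ℤ := ∑ j, (a j) • (w j)
    have hW : ∀ m, (W m : ℝ) = ∑ j, (a j : ℝ) * (w j m : ℝ) := by
      intro m
      simp [W, AddMonoidHom.finsetSum_apply]
    have hW0 : W ≠ 0 := by
      intro h
      have h1 : (fun j => (a j : ℝ)) = 0 := by
        apply hind
        intro m
        rw [← hW, h]
        simp
      have h2 := congrFun h1 ⟨0, hk⟩
      simp only [Pi.zero_apply, Int.cast_eq_zero] at h2
      exact ha0 _ h2
    let s : Fin k → ℝ := fun j => (a j : ℝ) - c j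
    let A : ι → ℝ := fun i => δ * ∑ j, ((1 + s j) * P j i + (1 - s j) * N j i)
    have hs : ∀ j, -1 ≤ s j ∧ s j ≤ 1 := fun j => abs_le.1 (ha j)
    have hA0 : ∀ i, 0 ≤ A i := by
      intro i
      refine mul_nonneg hδpos.le (Finset.sum_nonneg fun j _ => ?_)
      have := hs j
      exact add_nonneg (mul_nonneg (by linarith) (hP0 j i)) (mul_nonneg (by linarith) (hN0 j i))
    have hAW : ∀ m, (W m : ℝ) = ∑ i, A i * V i m := by
      intro m
      have h1 : ∑ i, A i * V i m = f m + ∑ j, s j * (w j m : ℝ) := by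
        rw [hf m]
        have h2 : ∀ j ∈ (Finset.univ : Finset (Fin k)), s j * (w j m : ℝ) =
            ∑ i, s j * δ * (P j i - N j i) * V i m := by
          intro j _
          rw [hbw j m, Finset.mul_sum, Finset.mul_sum]
          refine Finset.sum_congr rfl fun i _ => ?_
          rw [hPN]; ring
        rw [Finset.sum_congr rfl h2, Finset.sum_comm, ← Finset.sum_add_distrib]
        refine Finset.sum_congr rfl fun i _ => ?_
        simp only [A]
        rw [Finset.mul_sum, Finset.sum_mul, Finset.mul_sum, Finset.sum_mul,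
          ← Finset.sum_add_distrib]
        exact Finset.sum_congr rfl fun j _ => by ring
      rw [h1, hc m, hW m, ← Finset.sum_add_distrib]
      exact Finset.sum_congr rfl fun j _ => by simp only [s]; ring
    have h3 := hV W hW0 A hA0 hAW
    have h4 : ∑ i, A i ≤ 2 * k * δ := by
      have h5 : ∑ i, A i = δ * ∑ j, ∑ i, ((1 + s j) * P j i + (1 - s j) * N j i) := by
        simp only [A]
        rw [← Finset.mul_sum, Finset.sum_comm]
      have h6 : ∀ j, ∑ i, ((1 + s j) * P j i + (1 - s j) * N j i) ≤ 2 := by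
        intro j
        calc ∑ i, ((1 + s j) * P j i + (1 - s j) * N j i) ≤ ∑ i, 2 * |b j i| := by
              refine Finset.sum_le_sum fun i _ => ?_
              rw [← hPN' j i]
              have h7 := hs j
              have h8 := mul_nonneg (show 0 ≤ 1 - s j by linarith) (hP0 j i)
              have h9 := mul_nonneg (show 0 ≤ 1 + s j by linarith) (hN0 j i)
              nlinarith
          _ = 2 * ∑ i, |b j i| := by rw [Finset.mul_sum]
          _ ≤ 2 := by linarith [hb j]
      rw [h5]
      calc δ * ∑ j, ∑ i, ((1 + s j) * P j i + (1 - s j) * N j i) ≤ δ * ∑ j : Fin k, (2 : ℝ) :=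
            mul_le_mul_of_nonneg_left (Finset.sum_le_sum fun j _ => h6 j) hδpos.le
        _ = 2 * k * δ := by
            rw [Finset.sum_const, Finset.card_univ, Fintype.card_fin, nsmul_eq_mul]; ring
    have h10 : 2 * k * δ = ε / 2 := by rw [hδ]; field_simp; ring
    linarith
  · refine ⟨m, hm0, fun i => (hm i).trans (le_of_eq ?_)⟩
    rw [hδ, pow_succ, pow_succ 2 (k + 2), pow_succ 2 (k + 1)]
    field_simp
    ring

end
end Pool.Agent.Helper79.KLT
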