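import Mathlib
/-!
Minkowski's theorem on linear forms, over `ℤ^k`.
-/
set_option autoImplicit false
namespace Pool.Agent.Helper79.KLT
open MeasureTheory Matrix

/-- Minkowski's theorem on linear forms. -/
theorem minkowski_forms {k : ℕ} (hk : 0 < k) (G : Matrix (Fin k) (Fin k) ℝ) (hG : G.det ≠ 0)
    {η : ℝ} (hη : 0 < η) (hd : |G.det| ≤ η ^ k) :
    ∃ x : Fin k → ℤ, x ≠ 0 ∧ ∀ i, |(G *ᵥ (fun j => (x j : ℝ))) i| ≤ η := by
  classical
  haveI : Nonempty (Fin k) := ⟨⟨0, hk⟩⟩
  set b := Pi.basisFun ℝ (Fin k) with hb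
  set L : Submodule ℤ (Fin k → ℝ) := Submodule.span ℤ (Set.range b) with hL
  have fund : IsAddFundamentalDomain L.toAddSubgroup (ZSpan.fundamentalDomain b) volume :=
    ZSpan.isAddFundamentalDomain b volume
  haveI : Countable L.toAddSubgroup := (inferInstance : Countable L)
  haveI : DiscreteTopology L.toAddSubgroup := (inferInstance : DiscreteTopology L)
  have hvolF : volume (ZSpan.fundamentalDomain b) = 1 := by
    rw [hb, ZSpan.fundamentalDomain_pi_basisFun, Real.volume_pi_Ico]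
    simp
  set cube : Set (Fin k → ℝ) := Set.Icc (fun _ => -η) (fun _ => η) with hcube
  set f : (Fin k → ℝ) →ₗ[ℝ] (Fin k → ℝ) := Matrix.toLin' G with hf
  have hdet : LinearMap.det f = G.det := by rw [hf, LinearMap.det_toLin']
  have hdet0 : LinearMap.det f ≠ 0 := by rw [hdet]; exact hG
  set s : Set (Fin k → ℝ) := f ⁻¹' cube with hs
  have hvs : volume s = ENNReal.ofReal |(G.det)⁻¹| * ENNReal.ofReal ((2 * η) ^ k) := by
    rw [hs, Measure.addHaar_preimage_linearMap volume hdet0, hdet, hcube, Real.volume_Icc_pi]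
    congr 1
    rw [ENNReal.ofReal_pow (by positivity)]
    simp only [sub_neg_eq_add, Finset.prod_const, Finset.card_univ, Fintype.card_fin]
    congr 2
    ring
  have hsymm : ∀ x ∈ s, -x ∈ s := by
    intro x hx
    rw [hs, Set.mem_preimage, hcube, Set.mem_Icc] at hx ⊢
    rw [map_neg]
    refine ⟨fun i => ?_, fun i => ?_⟩
    · have := hx.2 i
      simp only [Pi.neg_apply] at *
      linarith
    · have := hx.1 i
      simp only [Pi.neg_apply] at *
      linarith
  have hconv : Convex ℝ s := (convex_Icc _ _).linear_preimage f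
  have hcpt : IsCompact s := by
    have h1 : s = (f.equivOfDetNeZero hdet0).toContinuousLinearEquiv.toHomeomorph ⁻¹' cube := rfl
    rw [h1]
    exact (Homeomorph.isCompact_preimage _).2 isCompact_Icc
  have hle : volume (ZSpan.fundamentalDomain b) * 2 ^ Module.finrank ℝ (Fin k → ℝ) ≤ volume s := by
    rw [hvolF, one_mul, Module.finrank_fin_fun, hvs]
    have h2 : ((2 : ENNReal) ^ k) = ENNReal.ofReal (2 ^ k) := by
      rw [ENNReal.ofReal_pow (by norm_num)]; norm_num
    rw [h2, ← ENNReal.ofReal_mul (abs_nonneg _)]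
    apply ENNReal.ofReal_le_ofReal
    have hpos : 0 < |G.det| := abs_pos.2 hG
    rw [abs_inv, mul_pow, ← mul_assoc, mul_comm (|G.det|⁻¹), mul_assoc]
    have : 1 ≤ |G.det|⁻¹ * η ^ k := by
      rw [inv_mul_eq_div, le_div_iff₀ hpos]; linarith
    have h3 : (0:ℝ) < 2 ^ k := by positivity
    nlinarith
  obtain ⟨x, hx0, hx⟩ := exists_ne_zero_mem_lattice_of_measure_mul_two_pow_le_measure
    (L := L.toAddSubgroup) fund hsymm hconv hcpt hle
  have hxL : (x : Fin k → ℝ) ∈ L := x.2
  have hcoord : ∀ i, ∃ n : ℤ, (n : ℝ) = (x : Fin k → ℝ) i := by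
    have := (b.mem_span_iff_repr_mem ℤ (x : Fin k → ℝ)).1 hxL
    intro i
    obtain ⟨n, hn⟩ := this i
    refine ⟨n, ?_⟩
    simpa [hb] using hn
  choose y hy using hcoord
  refine ⟨y, ?_, ?_⟩
  · intro h0
    apply hx0
    apply Subtype.ext
    ext i
    rw [← hy i, h0]
    simp
  · intro i
    have hxy : (fun j => (y j : ℝ)) = (x : Fin k → ℝ) := by ext j; exact hy j
    rw [hxy]
    rw [hs, Set.mem_preimage, hcube, Set.mem_Icc] at hx
    have h1 := hx.1 i
    have h2 := hx.2 i
    rw [hf, Matrix.toLin'_apply] at h1 h2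
    rw [abs_le]
    exact ⟨h1, h2⟩

end Pool.Agent.Helper79.KLT
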