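import Pool.Agent.Results.MP_bca9b8_ag.ToricContractions
/-! Sanity check: the fan of the projective line satisfies the definitions. -/
set_option autoImplicit false
namespace Pool.Agent.Helper79.KLT.Sanity
open Pool.Agent.Results.MP_bca9b8_ag.ToricContractions

def e : Fin 1 → ℤ := fun _ => 1
def e' : Fin 1 → ℤ := fun _ => -1

theorem ee' : e ≠ e' := by
  intro h; have := congrFun h 0; simp [e, e'] at this

theorem coneOf_empty : coneOf (∅ : Finset (Fin 1 → ℤ)) = {0} := by
  ext x
  constructor
  · rintro ⟨a, _, hx⟩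
    rw [Set.mem_singleton_iff]; funext i; rw [hx i]; simp
  · intro h
    rw [Set.mem_singleton_iff] at h; subst h
    exact ⟨fun _ => 0, fun _ => le_refl _, fun i => by simp⟩

theorem coneOf_single (c : ℤ) : coneOf ({fun _ => c} : Finset (Fin 1 → ℤ)) =
    {x | ∃ t : ℝ, 0 ≤ t ∧ ∀ i, x i = t * c} := by
  ext x
  constructor
  · rintro ⟨a, ha, hx⟩
    exact ⟨a (fun _ => c), ha _, fun i => by rw [hx i]; simp⟩
  · rintro ⟨t, ht, hx⟩
    exact ⟨fun _ => t, fun _ => ht, fun i => by rw [hx i]; simp⟩

theorem face_of (τ : Finset (Fin 1 → ℤ)) (v : Fin 1 → ℤ) (h : IsFace τ {v}) :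
    τ = ∅ ∨ τ = {v} := by
  obtain ⟨u, hu, h⟩ := h
  by_cases hv : v ∈ τ
  · right
    ext w
    constructor
    · intro hw; exact ((h w).1 hw).1
    · intro hw; rw [Finset.mem_singleton] at hw; subst hw; exact hv
  · left
    rw [Finset.eq_empty_iff_forall_notMem]
    intro w hw
    have h1 := ((h w).1 hw).1
    rw [Finset.mem_singleton] at h1
    subst h1
    exact hv hw

theorem isFace_empty_of (v : Fin 1 → ℤ) (c : ℝ) (hc : 0 < c * (v 0 : ℝ)) : IsFace ∅ {v} := by
  refine ⟨fun _ => c, fun w hw => ?_, fun w => ?_⟩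
  · rw [Finset.mem_singleton] at hw; subst hw
    simp [dotR]; exact hc.le
  · constructor
    · intro h; simp at h
    · rintro ⟨h1, h2⟩
      rw [Finset.mem_singleton] at h1; subst h1
      simp only [dotR, Finset.univ_unique, Fin.default_eq_zero, Fin.isValue,
        Finset.sum_singleton] at h2
      linarith

theorem isFace_self (σ : Finset (Fin 1 → ℤ)) : IsFace σ σ :=
  ⟨fun _ => 0, fun v _ => by simp [dotR], fun v => by simp [dotR]⟩

theorem isFace_empty_empty (τ : Finset (Fin 1 → ℤ)) (h : IsFace τ ∅) : τ = ∅ := by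
  obtain ⟨u, hu, h⟩ := h
  rw [Finset.eq_empty_iff_forall_notMem]
  intro w hw
  have h1 := ((h w).1 hw).1
  simp at h1

theorem prim (c : ℤ) (hc : c = 1 ∨ c = -1) : (fun _ : Fin 1 => c) ≠ 0 ∧
    ∀ (k : ℤ) (u : Fin 1 → ℤ), (fun _ : Fin 1 => c) = k • u → k = 1 ∨ k = -1 := by
  refine ⟨fun h => ?_, fun k u h => ?_⟩
  · have := congrFun h 0
    simp at this
    omega
  · have := congrFun h 0
    simp only [Pi.smul_apply, smul_eq_mul] at this
    have h1 : IsUnit k := by
      have h2 : IsUnit (k * u 0) := by
        rw [← this]; rcases hc with rfl | rfl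
        · exact isUnit_one
        · exact isUnit_one.neg
      exact isUnit_of_mul_isUnit_left h2
    exact Int.isUnit_iff.1 h1

theorem inter_ray : coneOf ({e} : Finset (Fin 1 → ℤ)) ∩ coneOf {e'} = {0} := by
  have h1 : coneOf ({e} : Finset (Fin 1 → ℤ)) = _ := coneOf_single 1
  have h2 : coneOf ({e'} : Finset (Fin 1 → ℤ)) = _ := coneOf_single (-1)
  rw [h1, h2]
  ext x
  constructor
  · rintro ⟨⟨t, ht, hx⟩, ⟨s, hs, hy⟩⟩
    rw [Set.mem_singleton_iff]; funext i
    have a := hx i
    have b := hy i
    push_cast at a b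
    simp only [Pi.zero_apply]
    linarith
  · intro h
    rw [Set.mem_singleton_iff] at h; subst h
    exact ⟨⟨0, le_refl _, fun i => by simp⟩, ⟨0, le_refl _, fun i => by simp⟩⟩

theorem disj : ({e} : Finset (Fin 1 → ℤ)) ∩ {e'} = ∅ := by
  rw [Finset.singleton_inter_of_notMem]
  simpa using ee'

/-- the fan of the projective line -/
def P1 : Fan 1 where
  cones := {∅, {e}, {e'}}
  zero_mem := by simp
  primitive := by
    intro σ hσ v hv
    simp only [Finset.mem_insert, Finset.mem_singleton] at hσ
    rcases hσ with rfl | rfl | rfl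
    · simp at hv
    · rw [Finset.mem_singleton] at hv; subst hv; exact prim 1 (Or.inl rfl)
    · rw [Finset.mem_singleton] at hv; subst hv; exact prim (-1) (Or.inr rfl)
  minimal := by
    intro σ hσ v hv
    simp only [Finset.mem_insert, Finset.mem_singleton] at hσ
    rcases hσ with rfl | rfl | rfl
    · simp at hv
    · rw [Finset.mem_singleton] at hv; subst hv
      rw [Finset.erase_singleton, coneOf_empty, Set.mem_singleton_iff]
      intro h; have := congrFun h 0; simp [real, e] at this
    · rw [Finset.mem_singleton] at hv; subst hv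
      rw [Finset.erase_singleton, coneOf_empty, Set.mem_singleton_iff]
      intro h; have := congrFun h 0; simp [real, e'] at this
  pointed := by
    intro σ hσ x hx hx'
    simp only [Finset.mem_insert, Finset.mem_singleton] at hσ
    rcases hσ with rfl | rfl | rfl
    · rw [coneOf_empty] at hx; exact hx
    · have h1 : coneOf ({e} : Finset (Fin 1 → ℤ)) = _ := coneOf_single 1
      rw [h1] at hx hx'
      obtain ⟨t, ht, hx⟩ := hx
      obtain ⟨s, hs, hx'⟩ := hx'
      funext i
      have a := hx i
      have b := hx' i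
      push_cast at a b
      simp only [Pi.neg_apply, Pi.zero_apply] at *
      linarith
    · have h1 : coneOf ({e'} : Finset (Fin 1 → ℤ)) = _ := coneOf_single (-1)
      rw [h1] at hx hx'
      obtain ⟨t, ht, hx⟩ := hx
      obtain ⟨s, hs, hx'⟩ := hx'
      funext i
      have a := hx i
      have b := hx' i
      push_cast at a b
      simp only [Pi.neg_apply, Pi.zero_apply] at *
      linarith
  face_mem := by
    intro σ hσ τ hτ
    simp only [Finset.mem_insert, Finset.mem_singleton] at hσ ⊢
    rcases hσ with rfl | rfl | rfl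
    · left; exact isFace_empty_empty τ hτ
    · rcases face_of τ e hτ with h | h
      · left; exact h
      · right; left; exact h
    · rcases face_of τ e' hτ with h | h
      · left; exact h
      · right; right; exact h
  inter_face := by
    have f1 : IsFace ∅ {e} := isFace_empty_of e 1 (by simp [e])
    have f2 : IsFace ∅ {e'} := isFace_empty_of e' (-1) (by simp [e'])
    have z : ∀ s : Finset (Fin 1 → ℤ), (0 : Fin 1 → ℝ) ∈ coneOf s := fun s =>
      ⟨fun _ => 0, fun _ => le_refl _, fun i => by simp⟩
    intro σ hσ τ hτ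
    simp only [Finset.mem_insert, Finset.mem_singleton] at hσ hτ
    rcases hσ with rfl | rfl | rfl <;> rcases hτ with rfl | rfl | rfl
    · simp only [Finset.empty_inter]; exact ⟨isFace_self _, by rw [Set.inter_self]⟩
    · rw [Finset.empty_inter, coneOf_empty]
      exact ⟨isFace_self _, by rw [Set.inter_eq_left.2]; simpa using z _⟩
    · rw [Finset.empty_inter, coneOf_empty]
      exact ⟨isFace_self _, by rw [Set.inter_eq_left.2]; simpa using z _⟩
    · rw [Finset.inter_empty, coneOf_empty]
      exact ⟨f1, by rw [Set.inter_eq_right.2]; simpa using z _⟩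
    · rw [Finset.inter_self]; exact ⟨isFace_self _, by rw [Set.inter_self]⟩
    · rw [disj, inter_ray, coneOf_empty]; exact ⟨f1, rfl⟩
    · rw [Finset.inter_empty, coneOf_empty]
      exact ⟨f2, by rw [Set.inter_eq_right.2]; simpa using z _⟩
    · rw [Finset.inter_comm, disj, Set.inter_comm, inter_ray, coneOf_empty]; exact ⟨f2, rfl⟩
    · rw [Finset.inter_self]; exact ⟨isFace_self _, by rw [Set.inter_self]⟩

end Pool.Agent.Helper79.KLT.Sanity
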