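import Pool.Agent.Helper79.KLT.Mink
/-!
A short dual vector when the lattice has no short vector (symmetric case, Auerbach basis).
-/
set_option autoImplicit false
namespace Pool.Agent.Helper79.KLT
open Matrix

section

theorem map_smulR {M : Type} [AddCommGroup M] (h : Module ℤ M) (f : M →+ ℝ) (n : ℤ) (x : M) :
    f (h.smul n x) = (n : ℝ) * f x := by
  rw [int_smul_eq_zsmul]; simp

theorem map_smulZ {M : Type} [AddCommGroup M] (h : Module ℤ M) (f : M →+ ℤ) (n : ℤ) (x : M) :
    f (h.smul n x) = n * f x := by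
  rw [int_smul_eq_zsmul]; simp

variable {M : Type} [AddCommGroup M]

theorem expand {k : ℕ} (e : Module.Basis (Fin k) ℤ M) (f : M →+ ℝ) (m : M) :
    f m = ∑ l, (e.repr m l : ℝ) * f (e l) := by
  conv_lhs => rw [← e.sum_repr m]
  rw [map_sum]
  exact Finset.sum_congr rfl fun l _ => map_smulR _ f _ _

/-- matrix of values of a tuple of functionals on a basis -/
noncomputable def mat {k : ℕ} (e : Module.Basis (Fin k) ℤ M) {ι : Type} (W : ι → M →+ ℝ) (s : Fin k → ι) :
    Matrix (Fin k) (Fin k) ℝ := Matrix.of fun j l => W (s j) (e l)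

theorem exists_det_ne {k : ℕ} (e : Module.Basis (Fin k) ℤ M) {ι : Type} [Fintype ι]
    (W : ι → M →+ ℝ) (hspan : ∀ f : M →+ ℝ, ∃ c : ι → ℝ, ∀ m, f m = ∑ i, c i * W i m) :
    ∃ s : Fin k → ι, (mat e W s).det ≠ 0 := by
  classical
  have hC : ∀ j : Fin k, ∃ c : ι → ℝ, ∀ l, (if j = l then (1:ℝ) else 0) = ∑ i, c i * W i (e l) := by
    intro j
    let f : M →+ ℝ := (Int.castAddHom ℝ).comp ((e.coord j).toAddMonoidHom)
    obtain ⟨c, hc⟩ := hspan f
    refine ⟨c, fun l => ?_⟩
    rw [← hc (e l)]
    simp only [f, AddMonoidHom.coe_comp, Function.comp_apply, Int.coe_castAddHom,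
      LinearMap.toAddMonoidHom_coe, Module.Basis.coord_apply, Module.Basis.repr_self]
    by_cases h : j = l
    · subst h; simp
    · rw [Finsupp.single_eq_of_ne (by simpa using h)]; simp [h]
  choose c hc using hC
  by_contra hcon
  push Not at hcon
  have h1 : (1 : Matrix (Fin k) (Fin k) ℝ) = fun j => ∑ i, c j i • (fun l => W i (e l)) := by
    ext j l
    rw [Matrix.one_apply, hc j l, Finset.sum_apply]
    rfl
  have h2 : (1 : Matrix (Fin k) (Fin k) ℝ).det = 0 := by
    have h3 : (1 : Matrix (Fin k) (Fin k) ℝ).det = Matrix.detRowAlternating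
      (fun j => ∑ i, c j i • (fun l => W i (e l))) := by
      rw [← h1]; rfl
    rw [h3]
    have h4 := (Matrix.detRowAlternating (n := Fin k) (R := ℝ)).toMultilinearMap.map_sum
      (fun j i => c j i • (fun l => W i (e l)))
    simp only [AlternatingMap.coe_multilinearMap] at h4
    rw [h4]
    refine Finset.sum_eq_zero fun r _ => ?_
    have h5 := (Matrix.detRowAlternating (n := Fin k) (R := ℝ)).toMultilinearMap.map_smul_univ
      (fun j => c j (r j)) (fun j => (fun l => W (r j) (e l)))
    simp only [AlternatingMap.coe_multilinearMap] at h5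
    rw [h5]
    have h6 : Matrix.detRowAlternating (fun j => (fun l => W (r j) (e l))) = (mat e W r).det := rfl
    rw [h6, hcon r, smul_zero]
  rw [Matrix.det_one] at h2
  exact one_ne_zero h2

/-- Auerbach tuple: a tuple with maximal determinant expresses all functionals with coefficients
of absolute value at most one. -/
theorem auerbach {k : ℕ} (e : Module.Basis (Fin k) ℤ M) {ι : Type} [Fintype ι]
    (W : ι → M →+ ℝ) (hspan : ∀ f : M →+ ℝ, ∃ c : ι → ℝ, ∀ m, f m = ∑ i, c i * W i m) :
    ∃ s : Fin k → ι, (mat e W s).det ≠ 0 ∧ ∀ i, ∃ t : Fin k → ℝ, (∀ j, |t j| ≤ 1) ∧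
      ∀ m, W i m = ∑ j, t j * W (s j) m := by
  classical
  obtain ⟨s0, hs0⟩ := exists_det_ne e W hspan
  haveI : Nonempty (Fin k → ι) := ⟨s0⟩
  obtain ⟨s, hs⟩ := Finite.exists_max (fun s : Fin k → ι => |(mat e W s).det|)
  have hsne : (mat e W s).det ≠ 0 := by
    intro h
    have := hs s0
    rw [h, abs_zero] at this
    exact hs0 (abs_eq_zero.1 (le_antisymm this (abs_nonneg _)))
  refine ⟨s, hsne, fun i => ?_⟩
  set G := mat e W s with hG
  let x : Fin k → ℝ := fun l => W i (e l)
  refine ⟨fun j => (G.det)⁻¹ * (Matrix.cramer Gᵀ x) j, fun j => ?_, ?_⟩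
  · show |(G.det)⁻¹ * (Matrix.cramer Gᵀ x) j| ≤ 1
    rw [Matrix.cramer_transpose_apply]
    have h1 : G.updateRow j x = mat e W (Function.update s j i) := by
      ext a l
      by_cases ha : a = j
      · subst ha
        simp [mat, x]
      · rw [Matrix.updateRow_ne ha]
        simp [mat, hG, Function.update_of_ne ha]
    rw [h1, abs_mul, abs_inv, inv_mul_eq_div, div_le_one (abs_pos.2 hsne)]
    exact hs _
  · have hx : ∀ l, x l = ∑ j, ((G.det)⁻¹ * (Matrix.cramer Gᵀ x) j) * W (s j) (e l) := by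
      intro l
      have h2 : (Gᵀ *ᵥ (Matrix.cramer Gᵀ x)) l = (Gᵀ.det • x) l := by
        rw [Matrix.mulVec_cramer]
      rw [Matrix.det_transpose, Pi.smul_apply, smul_eq_mul] at h2
      have h3 : (Gᵀ *ᵥ (Matrix.cramer Gᵀ x)) l = ∑ j, W (s j) (e l) * (Matrix.cramer Gᵀ x) j := rfl
      rw [h3] at h2
      have h4 : x l = (G.det)⁻¹ * ∑ j, W (s j) (e l) * (Matrix.cramer Gᵀ x) j := by
        rw [h2]; field_simp
      rw [h4, Finset.mul_sum]
      exact Finset.sum_congr rfl fun j _ => by ring
    intro m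
    rw [expand e (W i) m]
    have : ∀ l, (e.repr m l : ℝ) * W i (e l) =
        ∑ j, ((G.det)⁻¹ * (Matrix.cramer Gᵀ x) j) * ((e.repr m l : ℝ) * W (s j) (e l)) := by
      intro l
      have := hx l
      simp only [x] at this
      rw [this, Finset.mul_sum]
      exact Finset.sum_congr rfl fun j _ => by ring
    rw [Finset.sum_congr rfl fun l _ => this l, Finset.sum_comm]
    refine Finset.sum_congr rfl fun j _ => ?_
    rw [← Finset.mul_sum, ← expand e (W (s j)) m]

/-- If no nonzero lattice functional lies in `δ • conv(±W)`, there is a nonzero `m` which is small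
on all `W i`. -/
theorem dual_short {k : ℕ} (hk : 0 < k) [Module.Free ℤ M] [Module.Finite ℤ M]
    (hM : Module.finrank ℤ M = k) {ι : Type} [Fintype ι]
    (W : ι → M →+ ℝ) (hspan : ∀ f : M →+ ℝ, ∃ c : ι → ℝ, ∀ m, f m = ∑ i, c i * W i m)
    {δ : ℝ} (hδ : 0 < δ)
    (hno : ∀ w : M →+ ℤ, w ≠ 0 → ∀ b : ι → ℝ, ∑ i, |b i| ≤ 1 →
      ¬ ∀ m, (w m : ℝ) = δ * ∑ i, b i * W i m) :
    ∃ m : M, m ≠ 0 ∧ ∀ i, |W i m| ≤ (k : ℝ) ^ 2 / δ := by
  classical
  let e : Module.Basis (Fin k) ℤ M := Module.finBasisOfFinrankEq ℤ M hM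
  obtain ⟨s, hdet, hs⟩ := auerbach e W hspan
  set G := mat e W s with hG
  have hkpos : (0 : ℝ) < k := by exact_mod_cast hk
  have hlt : |G.det| ≤ ((k : ℝ) / δ) ^ k := by
    by_contra hcon
    push Not at hcon
    have hGi : ((G⁻¹)ᵀ).det ≠ 0 := by
      rw [Matrix.det_transpose, Matrix.det_nonsing_inv, Ring.inverse_eq_inv']
      exact inv_ne_zero hdet
    have hGd : |((G⁻¹)ᵀ).det| ≤ (δ / k) ^ k := by
      rw [Matrix.det_transpose, Matrix.det_nonsing_inv, Ring.inverse_eq_inv', abs_inv]
      rw [inv_le_comm₀ (abs_pos.2 hdet) (by positivity), ← inv_pow, inv_div]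
      exact hcon.le
    obtain ⟨y, hy0, hy⟩ := minkowski_forms hk ((G⁻¹)ᵀ) hGi (η := δ / k) (by positivity) hGd
    set c : Fin k → ℝ := (G⁻¹)ᵀ *ᵥ (fun j => (y j : ℝ)) with hc
    have hcG : Gᵀ *ᵥ c = fun j => (y j : ℝ) := by
      rw [hc, Matrix.mulVec_mulVec, ← Matrix.transpose_mul, Matrix.nonsing_inv_mul G
        (Ne.isUnit hdet), Matrix.transpose_one, Matrix.one_mulVec]
    let w : M →+ ℤ :=
      { toFun := fun m => ∑ l, e.repr m l * y l
        map_zero' := by simp
        map_add' := by
          intro a b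
          rw [← Finset.sum_add_distrib]
          refine Finset.sum_congr rfl fun l _ => ?_
          rw [map_add, Finsupp.add_apply, add_mul] }
    have hw0 : w ≠ 0 := by
      intro h
      apply hy0
      ext l
      have h1 : w (e l) = 0 := by rw [h]; rfl
      have h2 : w (e l) = ∑ l', e.repr (e l) l' * y l' := rfl
      rw [h2, Finset.sum_eq_single l] at h1
      · simpa using h1
      · intro b _ hb
        rw [Module.Basis.repr_self, Finsupp.single_eq_of_ne hb, zero_mul]
      · intro h; exact absurd (Finset.mem_univ _) h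
    have hwm : ∀ m, (w m : ℝ) = ∑ j, c j * W (s j) m := by
      intro m
      have h2 : w m = ∑ l', e.repr m l' * y l' := rfl
      rw [h2]
      push_cast
      have h3 : ∀ l, (y l : ℝ) = ∑ j, W (s j) (e l) * c j := by
        intro l
        have := congrFun hcG l
        exact this.symm
      have h4 : ∀ l ∈ (Finset.univ : Finset (Fin k)), (e.repr m l : ℝ) * (y l : ℝ) =
          ∑ j, c j * ((e.repr m l : ℝ) * W (s j) (e l)) := by
        intro l _
        rw [h3 l, Finset.mul_sum]
        exact Finset.sum_congr rfl fun j _ => by ring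
      rw [Finset.sum_congr rfl h4, Finset.sum_comm]
      refine Finset.sum_congr rfl fun j _ => ?_
      rw [← Finset.mul_sum, ← expand e (W (s j)) m]
    let b : ι → ℝ := fun i => ∑ j ∈ Finset.univ.filter (fun j => s j = i), c j / δ
    have hb1 : ∑ i, |b i| ≤ 1 := by
      calc ∑ i, |b i| ≤ ∑ i, ∑ j ∈ Finset.univ.filter (fun j => s j = i), |c j / δ| :=
            Finset.sum_le_sum fun i _ => Finset.abs_sum_le_sum_abs _ _
        _ = ∑ j, |c j / δ| := Finset.sum_fiberwise _ _ _
        _ ≤ ∑ j : Fin k, (1 / k : ℝ) := by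
            refine Finset.sum_le_sum fun j _ => ?_
            rw [abs_div, abs_of_pos hδ, div_le_iff₀ hδ]
            calc |c j| ≤ δ / k := hy j
              _ = 1 / k * δ := by ring
        _ = 1 := by
            rw [Finset.sum_const, Finset.card_univ, Fintype.card_fin, nsmul_eq_mul]
            field_simp
    refine hno w hw0 b hb1 fun m => ?_
    rw [hwm m, Finset.mul_sum]
    have h5 : ∀ i ∈ (Finset.univ : Finset ι), δ * (b i * W i m) =
        ∑ j ∈ Finset.univ.filter (fun j => s j = i), c j * W (s j) m := by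
      intro i _
      simp only [b]
      rw [Finset.sum_mul, Finset.mul_sum]
      refine Finset.sum_congr rfl fun j hj => ?_
      rw [(Finset.mem_filter.1 hj).2]
      field_simp
    rw [Finset.sum_congr rfl h5]
    exact (Finset.sum_fiberwise _ _ _).symm
  obtain ⟨x, hx0, hx⟩ := minkowski_forms hk G hdet (η := k / δ) (by positivity) hlt
  refine ⟨∑ l, x l • e l, ?_, fun i => ?_⟩
  · intro h
    apply hx0
    have h1 := e.repr_sum_self x
    rw [h] at h1
    funext l
    have h4 := congrFun h1 l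
    simpa using h4.symm
  · have hWm : ∀ f : M →+ ℝ, f (∑ l, x l • e l) = ∑ l, f (e l) * (x l : ℝ) := by
      intro f
      rw [map_sum]
      refine Finset.sum_congr rfl fun l _ => ?_
      rw [map_zsmul, zsmul_eq_mul, mul_comm]
    obtain ⟨t, ht, htW⟩ := hs i
    rw [htW]
    calc |∑ j, t j * W (s j) (∑ l, x l • e l)| ≤ ∑ j, |t j * W (s j) (∑ l, x l • e l)| :=
          Finset.abs_sum_le_sum_abs _ _
      _ ≤ ∑ j : Fin k, (k : ℝ) / δ := by
          refine Finset.sum_le_sum fun j _ => ?_
          rw [abs_mul]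
          have h1 : |W (s j) (∑ l, x l • e l)| ≤ k / δ := by
            rw [hWm]
            exact hx j
          calc |t j| * |W (s j) (∑ l, x l • e l)| ≤ 1 * (k / δ) :=
                mul_le_mul (ht j) h1 (abs_nonneg _) zero_le_one
            _ = k / δ := one_mul _
      _ = (k : ℝ) ^ 2 / δ := by
          rw [Finset.sum_const, Finset.card_univ, Fintype.card_fin, nsmul_eq_mul]
          ring

end
end Pool.Agent.Helper79.KLT
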