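import Pool.Agent.Helper79.KLT.Pos
/-!
# Klt complements of bounded index for toric contractions

Combinatorial form of Shokurov's conjecture on klt complements for toric varieties.  The lattice is
`N = ℤ^d`, its dual is `M = ℤ^d`.  A toric variety `X` which is projective over an affine toric
variety `Z` (`f : X → Z` a contraction) is given by a fan `F` whose support is convex.  `K_X` is
`ℝ`-Cartier when there are `ψ σ` (`σ` a cone of the fan) with `⟨ψ σ, v⟩ = 1` on the rays of `σ`,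
and then `⟨ψ σ, w⟩` is the log discrepancy `a(E_w, X, 0)` of the toric divisor of a primitive
lattice vector `w ∈ σ`; `-K_X` is nef over `Z` when `⟨ψ σ, v⟩ ≤ 1` for all rays `v` of the fan.
-/
set_option autoImplicit false
namespace Pool.Agent.Results.MP_bca9b8_ag.ToricContractions

/-- `⟨u, w⟩` for a real functional `u` and a lattice vector `w`. -/
noncomputable def dotR {d : ℕ} (u : Fin d → ℝ) (w : Fin d → ℤ) : ℝ := ∑ i, u i * (w i : ℝ)

/-- `⟨m, w⟩` for `m ∈ M` and `w ∈ N`. -/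
def dotZ {d : ℕ} (m w : Fin d → ℤ) : ℤ := ∑ i, m i * w i

/-- A lattice vector seen in `N_ℝ = ℝ^d`. -/
def real {d : ℕ} (w : Fin d → ℤ) : Fin d → ℝ := fun i => (w i : ℝ)

/-- The cone in `ℝ^d` generated by a finite set of lattice vectors. -/
def coneOf {d : ℕ} (s : Finset (Fin d → ℤ)) : Set (Fin d → ℝ) :=
  {x | ∃ a : (Fin d → ℤ) → ℝ, (∀ v, 0 ≤ a v) ∧ ∀ i, x i = ∑ v ∈ s, a v * (v i : ℝ)}

/-- `τ` is the set of those elements of `σ` that lie on the face cut out by some `u` which is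
nonnegative on `σ`. -/
def IsFace {d : ℕ} (τ σ : Finset (Fin d → ℤ)) : Prop :=
  ∃ u : Fin d → ℝ, (∀ v ∈ σ, 0 ≤ dotR u v) ∧ ∀ v, v ∈ τ ↔ (v ∈ σ ∧ dotR u v = 0)

/-- A fan in `ℤ^d`. Every cone is given by the finite set of its primitive ray generators. -/
structure Fan (d : ℕ) where
  /-- the cones, each given by its ray generators -/
  cones : Finset (Finset (Fin d → ℤ))
  /-- the zero cone belongs to the fan -/
  zero_mem : ∅ ∈ cones
  /-- the ray generators are primitive -/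
  primitive : ∀ σ ∈ cones, ∀ v ∈ σ, v ≠ 0 ∧
    ∀ (k : ℤ) (u : Fin d → ℤ), v = k • u → k = 1 ∨ k = -1
  /-- no ray generator lies in the cone generated by the others -/
  minimal : ∀ σ ∈ cones, ∀ v ∈ σ, real v ∉ coneOf (σ.erase v)
  /-- the cones contain no line -/
  pointed : ∀ σ ∈ cones, ∀ x ∈ coneOf σ, -x ∈ coneOf σ → x = 0
  /-- faces of cones are cones of the fan -/
  face_mem : ∀ σ ∈ cones, ∀ τ, IsFace τ σ → τ ∈ cones
  /-- two cones meet in a common face -/
  inter_face : ∀ σ ∈ cones, ∀ τ ∈ cones,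
    IsFace (σ ∩ τ) σ ∧ coneOf (σ ∩ τ) = coneOf σ ∩ coneOf τ

/-- The support of a fan. -/
def Fan.support {d : ℕ} (F : Fan d) : Set (Fin d → ℝ) := {x | ∃ σ ∈ F.cones, x ∈ coneOf σ}

/-- `v` is a ray generator of the fan. -/
def Fan.IsRay {d : ℕ} (F : Fan d) (v : Fin d → ℤ) : Prop := ∃ σ ∈ F.cones, v ∈ σ

/-- `K_X` is `ℝ`-Cartier with local equations `ψ σ`, and `-K_X` is nef over the affine toric variety
`Z`: `⟨ψ σ, v⟩ = 1` for the rays `v` of `σ` and `⟨ψ σ, v⟩ ≤ 1` for all rays `v` of the fan.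
(`-K_X` is ample over `Z` when moreover `⟨ψ σ, v⟩ < 1` for `σ` maximal and `v` not in `σ`.) -/
def Fan.AntiNef {d : ℕ} (F : Fan d) (ψ : Finset (Fin d → ℤ) → (Fin d → ℝ)) : Prop :=
  ∀ σ ∈ F.cones, (∀ v ∈ σ, dotR (ψ σ) v = 1) ∧ ∀ v, F.IsRay v → dotR (ψ σ) v ≤ 1

/-- `X` is `ε`-lc: the log discrepancy `⟨ψ σ, w⟩` of the toric valuation of every nonzero lattice
vector `w` in a cone `σ` of the fan is at least `ε`. -/
def Fan.IsLc {d : ℕ} (F : Fan d) (ψ : Finset (Fin d → ℤ) → (Fin d → ℝ)) (ε : ℝ) : Prop :=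
  ∀ σ ∈ F.cones, ∀ w : Fin d → ℤ, w ≠ 0 → real w ∈ coneOf σ → ε ≤ dotR (ψ σ) w

/-- The multiplicity along the toric divisor `E_w` (`w` in the cone with local equation `u = ψ σ`)
of a general member `D` of the linear subsystem of `|-n K_X|` spanned by the sections `x^m`,
`m ∈ S`: the minimum over `m ∈ S` of `⟨m, w⟩ + n ⟨u, w⟩`. -/
noncomputable def multGeneral {d : ℕ} (u : Fin d → ℝ) (n : ℕ) (S : Finset (Fin d → ℤ))
    (hS : S.Nonempty) (w : Fin d → ℤ) : ℝ :=
  S.inf' hS fun m => (dotZ m w : ℝ) + n * dotR u w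

/-- The log discrepancy `a(E_w, X, B)` for `B = D / n`, `D` a general member of the linear subsystem
of `|-n K_X|` spanned by the `x^m`, `m ∈ S`. -/
noncomputable def logDisc {d : ℕ} (u : Fin d → ℝ) (n : ℕ) (S : Finset (Fin d → ℤ))
    (hS : S.Nonempty) (w : Fin d → ℤ) : ℝ :=
  dotR u w - (1 / n) * multGeneral u n S hS w

/-- `S` defines a klt `n`-complement: `n ≥ 2` (so that the coefficient `1/n` of a general member is
less than one), all `x^m`, `m ∈ S`, are sections of `O_X(-n K_X)`, and for `B = D / n`, `D` a general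
member of the linear system they span, all toric log discrepancies of `(X, B)` are positive. -/
def Fan.IsKltComplement {d : ℕ} (F : Fan d) (ψ : Finset (Fin d → ℤ) → (Fin d → ℝ)) (n : ℕ)
    (S : Finset (Fin d → ℤ)) : Prop :=
  2 ≤ n ∧ (∀ m ∈ S, ∀ v, F.IsRay v → -(n : ℤ) ≤ dotZ m v) ∧
  ∃ hS : S.Nonempty, ∀ σ ∈ F.cones, ∀ w : Fin d → ℤ, w ≠ 0 → real w ∈ coneOf σ →
    0 < logDisc (ψ σ) n S hS w

/-- For every toric contraction `X → Z`, `dim X = d`, `X` `ε`-lc, `-K_X` nef over `Z` (for instance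
ample over `Z`), there is a klt `n`-complement for every integer `n ≥ 2` with
`n ≥ d 2^(d+4) / ε`. -/
theorem result (d : ℕ) (F : Fan d) (hconv : Convex ℝ F.support)
    (ψ : Finset (Fin d → ℤ) → (Fin d → ℝ)) (hψ : F.AntiNef ψ) (ε : ℝ) (hε : 0 < ε)
    (hlc : F.IsLc ψ ε) (n : ℕ) (hn2 : 2 ≤ n) (hn : d * 2 ^ (d + 4) / ε ≤ n) :
    ∃ S : Finset (Fin d → ℤ), F.IsKltComplement ψ n S := by
  classical
  -- support is a convex cone containing the rays
  have hscale : ∀ (t : ℝ), 0 ≤ t → ∀ x ∈ F.support, t • x ∈ F.support := by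
    rintro t ht x ⟨σ, hσ, a, ha, hx⟩
    refine ⟨σ, hσ, fun v => t * a v, fun v => mul_nonneg ht (ha v), fun i => ?_⟩
    rw [Pi.smul_apply, smul_eq_mul, hx i, Finset.mul_sum]
    exact Finset.sum_congr rfl fun v _ => by ring
  have hadd : ∀ x ∈ F.support, ∀ y ∈ F.support, x + y ∈ F.support := by
    intro x hx y hy
    have h1 := hconv hx hy (a := 1 / 2) (b := 1 / 2) (by norm_num) (by norm_num) (by norm_num)
    have h2 := hscale 2 (by norm_num) _ h1
    have h3 : (2 : ℝ) • ((1 / 2 : ℝ) • x + (1 / 2 : ℝ) • y) = x + y := by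
      rw [smul_add, smul_smul, smul_smul]; norm_num
    rwa [h3] at h2
  have hzero : (0 : Fin d → ℝ) ∈ F.support :=
    ⟨∅, F.zero_mem, fun _ => 0, fun _ => le_refl _, fun i => by simp⟩
  let rays : Finset (Fin d → ℤ) := F.cones.biUnion id
  have hrays : ∀ v, v ∈ rays ↔ F.IsRay v := by
    intro v
    simp [rays, Fan.IsRay]
  have hsingle : ∀ v, F.IsRay v → real v ∈ F.support := by
    rintro v ⟨σ, hσ, hv⟩
    refine ⟨σ, hσ, fun u => if u = v then 1 else 0, fun u => ?_, fun i => ?_⟩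
    · show (0 : ℝ) ≤ if u = v then 1 else 0
      split_ifs <;> norm_num
    · simp [real, hv]
  let V : {v // v ∈ rays} → (Fin d → ℤ) →+ ℝ := fun v =>
    { toFun := fun m => ∑ i, (m i : ℝ) * (v.1 i : ℝ)
      map_zero' := by simp
      map_add' := by
        intro a b
        rw [← Finset.sum_add_distrib]
        refine Finset.sum_congr rfl fun i _ => ?_
        rw [Pi.add_apply]; push_cast; ring }
  have hVm : ∀ v m, V v m = (dotZ m v.1 : ℝ) := by
    intro v m
    show ∑ i, (m i : ℝ) * (v.1 i : ℝ) = _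
    rw [dotZ]; push_cast; rfl
  have hV : ∀ w : (Fin d → ℤ) →+ ℤ, w ≠ 0 → ∀ a : {v // v ∈ rays} → ℝ, (∀ i, 0 ≤ a i) →
      (∀ m, (w m : ℝ) = ∑ i, a i * V i m) → ε ≤ ∑ i, a i := by
    intro w hw a ha hwa
    let w' : Fin d → ℤ := fun i => w (Pi.single i 1)
    have hw'0 : w' ≠ 0 := by
      intro h
      apply hw
      ext i
      have := congrFun h i
      simpa [w'] using this
    have hcoord : ∀ i, (w' i : ℝ) = ∑ v, a v * (v.1 i : ℝ) := by
      intro i
      show ((w (Pi.single i 1) : ℤ) : ℝ) = _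
      rw [hwa]
      refine Finset.sum_congr rfl fun v _ => ?_
      congr 1
      show ∑ j, ((Pi.single i (1 : ℤ) : Fin d → ℤ) j : ℝ) * (v.1 j : ℝ) = _
      rw [Finset.sum_eq_single i]
      · simp
      · intro b _ hb
        rw [Pi.single_eq_of_ne hb]; simp
      · intro h; exact absurd (Finset.mem_univ _) h
    have hmem : real w' ∈ F.support := by
      have h1 : real w' = ∑ v, a v • real v.1 := by
        funext i
        rw [Finset.sum_apply]
        exact hcoord i
      rw [h1]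
      refine Finset.sum_induction _ (fun x => x ∈ F.support) (fun x y hx hy => hadd x hx y hy)
        hzero fun v _ => ?_
      exact hscale _ (ha v) _ (hsingle v.1 ((hrays v.1).1 v.2))
    obtain ⟨σ, hσ, hσw⟩ := hmem
    have h2 := hlc σ hσ w' hw'0 hσw
    have h3 : dotR (ψ σ) w' = ∑ v, a v * dotR (ψ σ) v.1 := by
      rw [dotR]
      have h4 : ∀ i ∈ (Finset.univ : Finset (Fin d)), ψ σ i * (w' i : ℝ) =
          ∑ v : {v // v ∈ rays}, a v * (ψ σ i * (v.1 i : ℝ)) := by
        intro i _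
        rw [hcoord i, Finset.mul_sum]
        exact Finset.sum_congr rfl fun v _ => by ring
      rw [Finset.sum_congr rfl h4, Finset.sum_comm]
      refine Finset.sum_congr rfl fun v _ => ?_
      rw [dotR, Finset.mul_sum]
    rw [h3] at h2
    refine h2.trans (Finset.sum_le_sum fun v _ => ?_)
    have h5 := (hψ σ hσ).2 v.1 ((hrays v.1).1 v.2)
    calc a v * dotR (ψ σ) v.1 ≤ a v * 1 := mul_le_mul_of_nonneg_left h5 (ha v)
      _ = a v := mul_one _
  have hneg : ∀ x : Fin d → ℝ, x ≠ 0 → ∃ m : Fin d → ℤ, (∑ i, (m i : ℝ) * x i < 0) ∧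
      ∀ v, F.IsRay v → -(n : ℤ) ≤ dotZ m v := by
    intro x hx
    let v0 : (Fin d → ℤ) →+ ℝ :=
      { toFun := fun m => ∑ i, (m i : ℝ) * x i
        map_zero' := by simp
        map_add' := by
          intro a b
          rw [← Finset.sum_add_distrib]
          refine Finset.sum_congr rfl fun i _ => ?_
          rw [Pi.add_apply]; push_cast; ring }
    have hv0 : v0 ≠ 0 := by
      intro h
      apply hx
      funext i
      have h1 := DFunLike.congr_fun h (Pi.single i 1)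
      have h2 : v0 (Pi.single i 1) = x i := by
        show ∑ j, ((Pi.single i (1 : ℤ) : Fin d → ℤ) j : ℝ) * x j = _
        rw [Finset.sum_eq_single i]
        · simp
        · intro b _ hb
          rw [Pi.single_eq_of_ne hb]; simp
        · intro h; exact absurd (Finset.mem_univ _) h
      rw [← h2, h1]; rfl
    obtain ⟨m, hm0, hm⟩ := Helper79.KLT.pos_span d (Fin d → ℤ) (by simp) {v // v ∈ rays} V ε hε
      hV v0 hv0
    refine ⟨m, hm0, fun v hv => ?_⟩
    have h1 := hm ⟨v, (hrays v).2 hv⟩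
    rw [hVm] at h1
    have h2 : (-(n : ℝ)) ≤ (dotZ m v : ℝ) := by linarith
    exact_mod_cast h2
  -- compactness
  have hcpt : IsCompact (Metric.sphere (0 : Fin d → ℝ) 1) := isCompact_sphere _ _
  let T := {m : Fin d → ℤ // ∀ v, F.IsRay v → -(n : ℤ) ≤ dotZ m v}
  obtain ⟨t, ht⟩ := hcpt.elim_finite_subcover
    (fun m : T => {x : Fin d → ℝ | ∑ i, (m.1 i : ℝ) * x i < 0})
    (fun m => isOpen_lt (by fun_prop) continuous_const)
    (by
      intro x hx
      have hx0 : x ≠ 0 := by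
        rintro rfl
        simp at hx
      obtain ⟨m, hm, hm'⟩ := hneg x hx0
      exact Set.mem_iUnion.2 ⟨⟨m, hm'⟩, hm⟩)
  let S : Finset (Fin d → ℤ) := insert 0 (t.image Subtype.val)
  have hSn : S.Nonempty := ⟨0, Finset.mem_insert_self _ _⟩
  have hSsec : ∀ m ∈ S, ∀ v, F.IsRay v → -(n : ℤ) ≤ dotZ m v := by
    intro m hm v hv
    rcases Finset.mem_insert.1 hm with rfl | h
    · simp [dotZ]
    · obtain ⟨m', _, rfl⟩ := Finset.mem_image.1 h
      exact m'.2 v hv
  refine ⟨S, hn2, hSsec, hSn, fun σ hσ w hw hwσ => ?_⟩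
  have hwr : real w ≠ 0 := by
    intro h
    apply hw
    funext i
    have := congrFun h i
    simpa [real] using this
  have hnorm : 0 < ‖real w‖ := norm_pos_iff.2 hwr
  have hsph : (‖real w‖⁻¹) • real w ∈ Metric.sphere (0 : Fin d → ℝ) 1 := by
    rw [mem_sphere_zero_iff_norm, norm_smul, norm_inv, norm_norm]
    exact inv_mul_cancel₀ hnorm.ne'
  obtain ⟨m, hmt, hm⟩ := Set.mem_iUnion₂.1 (ht hsph)
  have hmS : m.1 ∈ S := Finset.mem_insert_of_mem (Finset.mem_image.2 ⟨m, hmt, rfl⟩)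
  have hm1 : (dotZ m.1 w : ℝ) < 0 := by
    have h1 : ∑ i, (m.1 i : ℝ) * ((‖real w‖⁻¹) • real w) i = ‖real w‖⁻¹ * (dotZ m.1 w : ℝ) := by
      rw [dotZ]
      push_cast
      rw [Finset.mul_sum]
      refine Finset.sum_congr rfl fun i _ => ?_
      rw [Pi.smul_apply, smul_eq_mul, real]; ring
    have h2 : ∑ i, (m.1 i : ℝ) * ((‖real w‖⁻¹) • real w) i < 0 := hm
    rw [h1] at h2
    by_contra hcon
    push Not at hcon
    have := mul_nonneg (inv_nonneg.2 hnorm.le) hcon
    linarith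
  have hinf : multGeneral (ψ σ) n S hSn w ≤ (dotZ m.1 w : ℝ) + n * dotR (ψ σ) w :=
    Finset.inf'_le _ hmS
  have hnpos : (0 : ℝ) < n := by
    have : 0 < n := by omega
    exact_mod_cast this
  rw [logDisc]
  have h3 : (1 / (n : ℝ)) * multGeneral (ψ σ) n S hSn w ≤
      (1 / n) * ((dotZ m.1 w : ℝ) + n * dotR (ψ σ) w) :=
    mul_le_mul_of_nonneg_left hinf (by positivity)
  have h4 : (1 / (n : ℝ)) * ((dotZ m.1 w : ℝ) + n * dotR (ψ σ) w) =
      (dotZ m.1 w : ℝ) / n + dotR (ψ σ) w := by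
    field_simp
  have h5 : (dotZ m.1 w : ℝ) / n < 0 := div_neg_of_neg_of_pos hm1 hnpos
  rw [h4] at h3
  linarith

end Pool.Agent.Results.MP_bca9b8_ag.ToricContractions
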