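import Pool.Agent.Helper79.KLT.Short
/-!
Transference for symmetric bodies `conv(±W)`: either a basis of short lattice vectors or a short
dual vector.
-/
set_option autoImplicit false
namespace Pool.Agent.Helper79.KLT

/-- A nonzero integral functional is an integer multiple of a surjective one. -/
theorem exists_prim {M : Type} [AddCommGroup M] (w : M →+ ℤ) (hw : w ≠ 0) :
    ∃ (q : M →+ ℤ) (g : ℤ) (u : M), g ≠ 0 ∧ (∀ m, w m = g * q m) ∧ q u = 1 := by
  obtain ⟨g, hg⟩ := Int.subgroup_cyclic w.range
  have hg0 : g ≠ 0 := by
    rintro rfl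
    apply hw
    ext m
    have : w m ∈ AddSubgroup.closure ({0} : Set ℤ) := by rw [← hg]; exact ⟨m, rfl⟩
    rw [AddSubgroup.closure_singleton_zero] at this
    simpa using this
  have hdvd : ∀ m, g ∣ w m := by
    intro m
    have : w m ∈ AddSubgroup.closure ({g} : Set ℤ) := by rw [← hg]; exact ⟨m, rfl⟩
    rw [← AddSubgroup.zmultiples_eq_closure] at this
    exact Int.mem_zmultiples_iff.1 this
  have hgr : g ∈ w.range := by
    rw [hg]; exact AddSubgroup.subset_closure (Set.mem_singleton g)
  obtain ⟨u, hu⟩ := hgr
  refine ⟨⟨⟨fun m => w m / g, by simp⟩, fun a b => ?_⟩, g, u, hg0, fun m => ?_, ?_⟩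
  · show w (a + b) / g = w a / g + w b / g
    rw [map_add, Int.add_ediv_of_dvd_left (hdvd a)]
  · exact (Int.mul_ediv_cancel' (hdvd m)).symm
  · show w u / g = 1
    rw [hu, Int.ediv_self hg0]

theorem sq_le_two_pow : ∀ k : ℕ, k ^ 2 ≤ 2 ^ (k + 1)
  | 0 => by norm_num
  | 1 => by norm_num
  | 2 => by norm_num
  | 3 => by norm_num
  | (k + 4) => by
    have h := sq_le_two_pow (k + 3)
    have : (k + 4) ^ 2 ≤ 2 * (k + 3) ^ 2 := by
      have h1 : 2 * (k + 3) ^ 2 = (k + 4) ^ 2 + (k ^ 2 + 4 * k + 2) := by ring
      rw [h1]; exact Nat.le_add_right _ _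
    calc (k + 4) ^ 2 ≤ 2 * (k + 3) ^ 2 := this
      _ ≤ 2 * 2 ^ (k + 3 + 1) := by omega
      _ = 2 ^ (k + 4 + 1) := by ring

/-- Transference theorem for symmetric polytopes. -/
theorem transference : ∀ (k : ℕ) (M : Type) [AddCommGroup M] [Module.Free ℤ M]
    [Module.Finite ℤ M], Module.finrank ℤ M = k → ∀ (ι : Type) [Fintype ι] (W : ι → M →+ ℝ),
    (∀ f : M →+ ℝ, ∃ c : ι → ℝ, ∀ m, f m = ∑ i, c i * W i m) → ∀ δ : ℝ, 0 < δ →
    (∃ w : Fin k → (M →+ ℤ), (∀ j, ∃ b : ι → ℝ, ∑ i, |b i| ≤ 1 ∧
        ∀ m, (w j m : ℝ) = δ * ∑ i, b i * W i m) ∧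
      (∀ c : Fin k → ℝ, (∀ m, ∑ j, c j * (w j m : ℝ) = 0) → c = 0) ∧
      (∀ f : M →+ ℝ, ∃ c : Fin k → ℝ, ∀ m, f m = ∑ j, c j * (w j m : ℝ))) ∨
    (∃ m : M, m ≠ 0 ∧ ∀ i, |W i m| ≤ 2 ^ (k + 1) / δ) := by
  intro k
  induction k with
  | zero =>
    intro M _ _ _ hM ι _ W hspan δ hδ
    left
    haveI : Subsingleton M := by
      have := Module.finrank_eq_zero_iff_of_free (R := ℤ) (M := M)
      exact this.1 hM
    refine ⟨fun j => j.elim0, fun j => j.elim0, fun c _ => funext fun j => j.elim0, fun f => ?_⟩
    refine ⟨fun j => j.elim0, fun m => ?_⟩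
    rw [Subsingleton.elim m 0, map_zero]
    simp
  | succ k ih =>
    intro M _ _ _ hM ι _ W hspan δ hδ
    by_cases hex : ∃ w : M →+ ℤ, w ≠ 0 ∧ ∃ b : ι → ℝ, ∑ i, |b i| ≤ 1 ∧
        ∀ m, (w m : ℝ) = δ * ∑ i, b i * W i m
    swap
    · right
      push Not at hex
      obtain ⟨m, hm0, hm⟩ := dual_short (Nat.succ_pos k) hM W hspan hδ
        (fun w hw b hb h => by
          obtain ⟨m, hm⟩ := hex w hw b hb
          exact hm (h m))
      refine ⟨m, hm0, fun i => (hm i).trans ?_⟩
      have := sq_le_two_pow (k + 1)
      have h2 : (((k + 1 : ℕ) : ℝ)) ^ 2 ≤ 2 ^ (k + 1 + 1) := by exact_mod_cast this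
      exact div_le_div_of_nonneg_right h2 hδ.le
    · obtain ⟨w0, hw0, b0', hb0', hw0m⟩ := hex
      obtain ⟨q, g, u, hg, hgq, hqu⟩ := exists_prim w0 hw0
      -- q itself is in δ conv
      obtain ⟨b0, hb0, hq⟩ : ∃ b : ι → ℝ, ∑ i, |b i| ≤ 1 ∧
          ∀ m, (q m : ℝ) = δ * ∑ i, b i * W i m := by
        refine ⟨fun i => (g : ℝ)⁻¹ * b0' i, ?_, fun m => ?_⟩
        · have h1 : |(g : ℝ)⁻¹| ≤ 1 := by
            rw [abs_inv]
            apply inv_le_one_of_one_le₀
            have : (1 : ℤ) ≤ |g| := Int.one_le_abs hg
            exact_mod_cast this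
          calc ∑ i, |(g : ℝ)⁻¹ * b0' i| = |(g : ℝ)⁻¹| * ∑ i, |b0' i| := by
                rw [Finset.mul_sum]; exact Finset.sum_congr rfl fun i _ => abs_mul _ _
            _ ≤ 1 * 1 := mul_le_mul h1 hb0' (Finset.sum_nonneg fun i _ => abs_nonneg _) zero_le_one
            _ = 1 := one_mul 1
        · have hgR : (g : ℝ) ≠ 0 := by exact_mod_cast hg
          have h2 : (w0 m : ℝ) = g * q m := by rw [hgq m]; push_cast; ring
          have h3 : (q m : ℝ) = (g : ℝ)⁻¹ * (w0 m : ℝ) := by rw [h2]; field_simp
          rw [h3, hw0m m, Finset.mul_sum, Finset.mul_sum, Finset.mul_sum]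
          exact Finset.sum_congr rfl fun i _ => by ring
      -- kernel
      let Q : M →ₗ[ℤ] ℤ := q.toIntLinearMap
      let K : Submodule ℤ M := LinearMap.ker Q
      have hKmem : ∀ x : M, x ∈ K ↔ q x = 0 := fun x => LinearMap.mem_ker
      have hQsurj : LinearMap.range Q = ⊤ := by
        rw [LinearMap.range_eq_top]
        intro n
        refine ⟨n • u, ?_⟩
        show q _ = n
        rw [map_zsmul, hqu]; simp
      have hKrank : Module.finrank ℤ K = k := by
        have h1 := Submodule.finrank_quotient_add_finrank K
        have h2 := (Q.quotKerEquivOfSurjective (LinearMap.range_eq_top.1 hQsurj)).finrank_eq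
        rw [Module.finrank_self] at h2
        have h3 : Module.finrank ℤ (M ⧸ K) = 1 := h2
        omega
      have hnoeth : IsNoetherian ℤ M := isNoetherian_of_isNoetherianRing_of_finite ℤ M
      haveI : Module.Finite ℤ K := Module.IsNoetherian.finite ℤ K
      haveI : Module.Free ℤ K := Module.free_of_finite_type_torsion_free'
      let inc : K →+ M := K.subtype.toAddMonoidHom
      have hinc : ∀ x : K, inc x = (x : M) := fun x => rfl
      -- projection M → K
      have hprojmem : ∀ m : M, m - q m • u ∈ K := by
        intro m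
        rw [hKmem, map_sub, map_zsmul, hqu]
        simp
      let pr : M →+ K :=
        { toFun := fun m => ⟨m - q m • u, hprojmem m⟩
          map_zero' := by ext; simp
          map_add' := by
            intro a b
            ext
            simp only [map_add, add_zsmul, Submodule.coe_add]
            abel }
      have hpr : ∀ m, ((pr m : K) : M) = m - q m • u := fun m => rfl
      have hprK : ∀ x : K, pr x = x := by
        intro x
        ext
        rw [hpr, (hKmem x).1 x.2, zero_smul, sub_zero]
      let W' : ι → K →+ ℝ := fun i => (W i).comp inc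
      have hspan' : ∀ f : K →+ ℝ, ∃ c : ι → ℝ, ∀ m, f m = ∑ i, c i * W' i m := by
        intro f
        obtain ⟨c, hc⟩ := hspan (f.comp pr)
        refine ⟨c, fun x => ?_⟩
        have := hc (x : M)
        rw [AddMonoidHom.comp_apply, hprK] at this
        exact this
      rcases ih K hKrank ι W' hspan' (δ / 2) (by positivity) with ⟨w', hw', hind, hsp⟩ | ⟨m, hm0, hm⟩
      · left
        -- lift the functionals
        have hlift : ∀ j, ∃ wj : M →+ ℤ, (∀ x : K, wj x = w' j x) ∧
            ∃ b : ι → ℝ, ∑ i, |b i| ≤ 1 ∧ ∀ m, (wj m : ℝ) = δ * ∑ i, b i * W i m := by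
          intro j
          obtain ⟨b, hb, hbw⟩ := hw' j
          let gj : M → ℝ := fun m => δ / 2 * ∑ i, b i * W i m
          set y : ℝ := gj u with hy
          refine ⟨(w' j).comp pr + (round y) • q, fun x => ?_, ?_⟩
          · rw [AddMonoidHom.add_apply, AddMonoidHom.comp_apply, hprK]
            have : ((round y) • q) (x : M) = (round y) * q x := by simp
            rw [this, (hKmem x).1 x.2, mul_zero, add_zero]
          · refine ⟨fun i => b i / 2 + ((round y : ℝ) - y) * b0 i, ?_, fun m => ?_⟩
            · have hr : |(round y : ℝ) - y| ≤ 1 / 2 := by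
                rw [abs_sub_comm]; exact abs_sub_round y
              calc ∑ i, |b i / 2 + ((round y : ℝ) - y) * b0 i|
                  ≤ ∑ i, (|b i| / 2 + 1 / 2 * |b0 i|) := by
                    refine Finset.sum_le_sum fun i _ => ?_
                    calc |b i / 2 + ((round y : ℝ) - y) * b0 i|
                        ≤ |b i / 2| + |((round y : ℝ) - y) * b0 i| := abs_add_le _ _
                      _ = |b i| / 2 + |(round y : ℝ) - y| * |b0 i| := by
                          rw [abs_mul, abs_div, abs_two]
                      _ ≤ |b i| / 2 + 1 / 2 * |b0 i| := by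
                          have := mul_le_mul_of_nonneg_right hr (abs_nonneg (b0 i))
                          linarith
                _ = (∑ i, |b i|) / 2 + 1 / 2 * ∑ i, |b0 i| := by
                    rw [Finset.sum_add_distrib, Finset.sum_div, Finset.mul_sum]
                _ ≤ 1 := by linarith
            · have h1 : (((w' j).comp pr + (round y) • q) m : ℤ) = w' j (pr m) + round y * q m := by
                simp
              rw [h1]
              push_cast
              rw [hbw (pr m)]
              have h2 : ∀ i, W' i (pr m) = W i m - (q m : ℝ) * W i u := by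
                intro i
                show W i ((pr m : K) : M) = _
                rw [hpr, map_sub, map_zsmul, zsmul_eq_mul]
              have h3 : δ / 2 * ∑ i, b i * W' i (pr m) =
                  δ / 2 * ∑ i, b i * W i m - (q m : ℝ) * y := by
                rw [hy]
                show _ = _ - (q m : ℝ) * (δ / 2 * ∑ i, b i * W i u)
                rw [Finset.sum_congr rfl fun i _ => by rw [h2 i]]
                rw [Finset.mul_sum, Finset.mul_sum, Finset.mul_sum, Finset.mul_sum,
                  ← Finset.sum_sub_distrib]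
                exact Finset.sum_congr rfl fun i _ => by ring
              rw [h3]
              have h4 : δ * ∑ i, (b i / 2 + ((round y : ℝ) - y) * b0 i) * W i m =
                  δ / 2 * ∑ i, b i * W i m + ((round y : ℝ) - y) * (q m : ℝ) := by
                rw [hq m, Finset.mul_sum, Finset.mul_sum, Finset.mul_sum, Finset.mul_sum,
                  ← Finset.sum_add_distrib]
                exact Finset.sum_congr rfl fun i _ => by ring
              rw [h4]
              ring
        choose wl hwlK hwlb using hlift
        refine ⟨Fin.cons q wl, ?_, ?_, ?_⟩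
        · intro j
          refine Fin.cases ?_ (fun j => ?_) j
          · exact ⟨b0, hb0, hq⟩
          · exact hwlb j
        · intro c hc
          have hc' : ∀ m : M, c 0 * (q m : ℝ) + ∑ j : Fin k, c j.succ * (wl j m : ℝ) = 0 := by
            intro m
            have := hc m
            rw [Fin.sum_univ_succ] at this
            simpa using this
          have h1 : (fun j : Fin k => c j.succ) = 0 := by
            apply hind
            intro x
            have := hc' (x : M)
            rw [(hKmem x).1 x.2] at this
            simp only [Int.cast_zero, mul_zero, zero_add, hwlK] at this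
            exact this
          have h2 : c 0 = 0 := by
            have := hc' u
            have h3 : ∑ j : Fin k, c j.succ * (wl j u : ℝ) = 0 := by
              refine Finset.sum_eq_zero fun j _ => ?_
              have := congrFun h1 j
              simp only [Pi.zero_apply] at this
              rw [this, zero_mul]
            rw [h3, hqu] at this
            simpa using this
          funext j
          refine Fin.cases ?_ (fun j => ?_) j
          · exact h2
          · exact congrFun h1 j
        · intro f
          obtain ⟨c, hc⟩ := hsp (f.comp inc)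
          refine ⟨Fin.cons (f u - ∑ j, c j * (wl j u : ℝ)) c, fun m => ?_⟩
          rw [Fin.sum_univ_succ]
          simp only [Fin.cons_zero, Fin.cons_succ]
          have h1 := hc (pr m)
          have h2 : f.comp inc (pr m) = f m - (q m : ℝ) * f u := by
            show f ((pr m : K) : M) = _
            rw [hpr, map_sub, map_zsmul, zsmul_eq_mul]
          have h3 : ∀ j, (w' j (pr m) : ℝ) = (wl j m : ℝ) - (q m : ℝ) * (wl j u : ℝ) := by
            intro j
            rw [← hwlK j (pr m), hpr, map_sub, map_zsmul]
            push_cast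
            simp
          rw [h2, Finset.sum_congr rfl fun j _ => by rw [h3 j]] at h1
          have h4 : f m = (q m : ℝ) * f u + ∑ j, c j * ((wl j m : ℝ) - (q m : ℝ) * (wl j u : ℝ)) := by
            linarith
          rw [h4]
          have h5 : ∑ j, c j * ((wl j m : ℝ) - (q m : ℝ) * (wl j u : ℝ)) =
              ∑ j, c j * (wl j m : ℝ) - (q m : ℝ) * ∑ j, c j * (wl j u : ℝ) := by
            rw [Finset.mul_sum, ← Finset.sum_sub_distrib]
            exact Finset.sum_congr rfl fun j _ => by ring
          rw [h5]
          ring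
      · right
        refine ⟨(m : M), ?_, fun i => ?_⟩
        · intro h
          exact hm0 (Subtype.ext h)
        · have h1 := hm i
          have h2 : (2 : ℝ) ^ (k + 1) / (δ / 2) = 2 ^ (k + 1 + 1) / δ := by
            rw [div_div_eq_mul_div, ← pow_succ]
          rw [h2] at h1
          exact h1

end Pool.Agent.Helper79.KLT
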